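import Pool.Agent.Lib.MP_bae66e_nt.Mg.G051
import Pool.Agent.Lib.MP_bae66e_nt.Mg.G048

/-!
# C05: smallness in mean
-/

set_option autoImplicit false

open Finset

namespace Pool.Agent.Lib.MP_bae66e_nt.LL

/-- From a weighted truncated second moment to the first moment. Let `Δ, S : ℤ → ℝ` on a finite set
`F`, `S ≥ 0`, `∑ exp(-t S) min(Δ², 1) ≤ A`, `∑ Δ² ≤ B`, `∑ S² ≤ B'`. For `0 < δ ≤ 1`, `M > 0`:
`∑ |Δ| ≤ δ #F + √(exp(t M) A/δ² + B'/M²) √B`.

PROOF. Where `|Δ| ≤ δ` the sum is `≤ δ #F`. The set `{|Δ| > δ, S ≤ M}` has at most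
`exp(t M) A / δ²` elements, as there `exp(-t S) min(Δ², 1) ≥ exp(-t M) δ²`; the set `{S > M}` has at
most `B'/M²`. Cauchy-Schwarz on the union. -/
lemma first_moment_le (F : Finset ℤ) (Δ S : ℤ → ℝ) (t A B B' δ M : ℝ) (ht : 0 ≤ t)
    (hS : ∀ m ∈ F, 0 ≤ S m)
    (hA : ∑ m ∈ F, Real.exp (-(t * S m)) * min ((Δ m) ^ 2) 1 ≤ A)
    (hB : ∑ m ∈ F, (Δ m) ^ 2 ≤ B) (hB' : ∑ m ∈ F, (S m) ^ 2 ≤ B') (hδ : 0 < δ) (hδ1 : δ ≤ 1)
    (hM : 0 < M) :
    ∑ m ∈ F, |Δ m| ≤ δ * F.card + Real.sqrt (Real.exp (t * M) * A / δ ^ 2 + B' / M ^ 2)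
      * Real.sqrt B := by
  classical
  set G := F.filter (fun m => δ < |Δ m|) with hG
  have hGF : G ⊆ F := Finset.filter_subset _ _
  have h1 : ∑ m ∈ F, |Δ m| ≤ δ * F.card + ∑ m ∈ G, |Δ m| := by
    rw [← Finset.sum_filter_add_sum_filter_not F (fun m => δ < |Δ m|), ← hG, add_comm]
    refine add_le_add ?_ le_rfl
    calc ∑ m ∈ F.filter (fun m => ¬ δ < |Δ m|), |Δ m|
        ≤ ∑ m ∈ F.filter (fun m => ¬ δ < |Δ m|), δ :=
          Finset.sum_le_sum fun m hm => not_lt.1 (Finset.mem_filter.1 hm).2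
      _ = ((F.filter (fun m => ¬ δ < |Δ m|)).card : ℝ) * δ := by
          rw [Finset.sum_const, nsmul_eq_mul]
      _ ≤ (F.card : ℝ) * δ := by
          refine mul_le_mul_of_nonneg_right ?_ hδ.le
          exact_mod_cast Finset.card_le_card (Finset.filter_subset _ _)
      _ = δ * F.card := mul_comm _ _
  refine h1.trans (add_le_add le_rfl ?_)
  have h2 : ∑ m ∈ G, |Δ m| ≤ Real.sqrt (G.card : ℝ) * Real.sqrt (∑ m ∈ G, (Δ m) ^ 2) := by
    have h3 := Real.sum_mul_le_sqrt_mul_sqrt G (fun _ => (1 : ℝ)) (fun m => |Δ m|)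
    simp only [one_mul, one_pow, sq_abs, Finset.sum_const, nsmul_eq_mul, mul_one] at h3
    exact h3
  refine h2.trans (mul_le_mul (Real.sqrt_le_sqrt ?_) (Real.sqrt_le_sqrt ?_)
    (Real.sqrt_nonneg _) (Real.sqrt_nonneg _))
  · -- the number of elements
    have h3 : (G.card : ℝ) = ((G.filter (fun m => S m ≤ M)).card : ℝ) +
        ((G.filter (fun m => ¬ S m ≤ M)).card : ℝ) := by
      have := Finset.card_filter_add_card_filter_not (s := G) (fun m => S m ≤ M)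
      exact_mod_cast this.symm
    rw [h3]
    refine add_le_add ?_ ?_
    · rw [le_div_iff₀ (by positivity)]
      have h4 : ((G.filter (fun m => S m ≤ M)).card : ℝ) * (Real.exp (-(t * M)) * δ ^ 2) ≤ A := by
        refine le_trans ?_ hA
        calc ((G.filter (fun m => S m ≤ M)).card : ℝ) * (Real.exp (-(t * M)) * δ ^ 2)
            = ∑ m ∈ G.filter (fun m => S m ≤ M), Real.exp (-(t * M)) * δ ^ 2 := by
              rw [Finset.sum_const, nsmul_eq_mul]
          _ ≤ ∑ m ∈ G.filter (fun m => S m ≤ M),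
                Real.exp (-(t * S m)) * min ((Δ m) ^ 2) 1 := by
              refine Finset.sum_le_sum fun m hm => ?_
              rw [Finset.mem_filter, hG, Finset.mem_filter] at hm
              refine mul_le_mul ?_ ?_ (by positivity) (Real.exp_pos _).le
              · rw [Real.exp_le_exp]
                have := mul_le_mul_of_nonneg_left hm.2 ht
                linarith
              · refine le_min ?_ ?_
                · rw [← sq_abs (Δ m)]
                  exact pow_le_pow_left₀ hδ.le hm.1.2.le 2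
                · exact pow_le_one₀ hδ.le hδ1
          _ ≤ ∑ m ∈ F, Real.exp (-(t * S m)) * min ((Δ m) ^ 2) 1 := by
              refine Finset.sum_le_sum_of_subset_of_nonneg
                ((Finset.filter_subset _ _).trans hGF) fun m _ _ => ?_
              have : (0 : ℝ) ≤ min ((Δ m) ^ 2) 1 := le_min (sq_nonneg _) zero_le_one
              positivity
      have h5 : Real.exp (t * M) * Real.exp (-(t * M)) = 1 := by
        rw [← Real.exp_add, add_neg_cancel, Real.exp_zero]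
      calc ((G.filter (fun m => S m ≤ M)).card : ℝ) * δ ^ 2
          = Real.exp (t * M) * (((G.filter (fun m => S m ≤ M)).card : ℝ) *
            (Real.exp (-(t * M)) * δ ^ 2)) := by
            linear_combination (-(((G.filter (fun m => S m ≤ M)).card : ℝ) * δ ^ 2)) * h5
        _ ≤ Real.exp (t * M) * A := mul_le_mul_of_nonneg_left h4 (Real.exp_pos _).le
    · rw [le_div_iff₀ (by positivity)]
      refine le_trans ?_ hB'
      calc ((G.filter (fun m => ¬ S m ≤ M)).card : ℝ) * M ^ 2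
          = ∑ m ∈ G.filter (fun m => ¬ S m ≤ M), M ^ 2 := by
            rw [Finset.sum_const, nsmul_eq_mul]
        _ ≤ ∑ m ∈ G.filter (fun m => ¬ S m ≤ M), (S m) ^ 2 := by
            refine Finset.sum_le_sum fun m hm => ?_
            rw [Finset.mem_filter] at hm
            exact pow_le_pow_left₀ hM.le (not_le.1 hm.2).le 2
        _ ≤ ∑ m ∈ F, (S m) ^ 2 :=
            Finset.sum_le_sum_of_subset_of_nonneg ((Finset.filter_subset _ _).trans hGF)
              fun m _ _ => sq_nonneg _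
  · exact (Finset.sum_le_sum_of_subset_of_nonneg hGF fun m _ _ => sq_nonneg _).trans hB

/-- Under the limit law, for every `t > 0`, `ε > 0`, for `w ≥ w₀` and `X ≥ X₀(w)`:
`∑_{m ≤ X} |λ(m) - t SP W m| ≤ ε X`, `W = primorial w` (all `m`).

PROOF. Even `m`: `first_moment_le` with `Δ = λ - t SP`, `S = SP`: `∑ Δ² ≤ 2 ∑ λ² + 2 t² ∑ SP² ≤ B₀ X`
with `B₀` depending only on `t` (`second_moment_lam` with `C₀ = t + 1`, `δ = 1`; note
`y/(log X log y) ≤ t + 1`; `second_moment_SP`). Choose `δ = ε/4`, then `M` with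
`√(2 K/M²) √B₀ ≤ ε/4`, and then `ε'` for `defect_small` such that
`√(2 exp(t M) ε'/δ²) √B₀ ≤ ε/4`. Odd `m`: `SP W m = 0` (`SP_odd`) and
`∑_{odd} λ ≤ y W / log y ≤ (ε/4) X` for large `X` (`sum_lam_odd_le`; `y = yX t X ≤ t (log X)²`). -/
theorem L1_small (t : ℝ) (ht : 0 < t) (hLL : LimitLawAt t) (ε : ℝ) (hε : 0 < ε) :
    ∃ w₀ : ℕ, ∀ w : ℕ, w₀ ≤ w → ∃ X₀ : ℕ, ∀ X : ℕ, X₀ ≤ X →
      ∑ m ∈ Finset.Ioc (0 : ℤ) (X : ℤ),
        |lamQ (primorial w) (yX t X) (QQ 0 X) m - t * SP (primorial w) m| ≤ ε * X := by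
  classical
  obtain ⟨K₁, hK₁, hlam⟩ := second_moment_lam
  obtain ⟨K₂, hK₂, hSP⟩ := second_moment_SP
  obtain ⟨B₀, hB₀⟩ : ∃ B₀ : ℝ, B₀ = 2 * (K₁ * (t + 1) ^ 2 + 1) + 2 * t ^ 2 * K₂ := ⟨_, rfl⟩
  have hB₀pos : 0 < B₀ := by
    rw [hB₀]
    positivity
  obtain ⟨δ, hδd⟩ : ∃ δ : ℝ, δ = min 1 (ε / 4) := ⟨_, rfl⟩
  have hδ : 0 < δ := by
    rw [hδd]
    exact lt_min one_pos (by positivity)
  have hδ1 : δ ≤ 1 := by
    rw [hδd]
    exact min_le_left _ _
  have hδε : δ ≤ ε / 4 := by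
    rw [hδd]
    exact min_le_right _ _
  obtain ⟨M, hMd⟩ : ∃ M : ℝ, M = Real.sqrt (32 * K₂ * B₀) / ε := ⟨_, rfl⟩
  have hM : 0 < M := by
    rw [hMd]
    have : 0 < Real.sqrt (32 * K₂ * B₀) := Real.sqrt_pos.2 (by positivity)
    positivity
  have hM2 : K₂ / M ^ 2 * B₀ = ε ^ 2 / 32 := by
    rw [hMd, div_pow, Real.sq_sqrt (by positivity)]
    have : K₂ ≠ 0 := by linarith
    field_simp
  obtain ⟨ε', hε'd⟩ : ∃ ε' : ℝ, ε' = ε ^ 2 * δ ^ 2 / (32 * Real.exp (t * M) * B₀) := ⟨_, rfl⟩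
  have hexp : 0 < Real.exp (t * M) := Real.exp_pos _
  have hε' : 0 < ε' := by
    rw [hε'd]
    positivity
  have hε'2 : Real.exp (t * M) * ε' / δ ^ 2 * B₀ = ε ^ 2 / 32 := by
    rw [hε'd]
    field_simp
  obtain ⟨w₁, hw₁⟩ := defect_small t ht hLL ε' hε'
  refine ⟨max 2 w₁, fun w hw => ?_⟩
  have hw2 : 2 ≤ w := (le_max_left _ _).trans hw
  have hw1' : w₁ ≤ w := (le_max_right _ _).trans hw
  have h2 : 2 ∣ primorial w := Nat.prime_two.dvd_primorial_iff.2 (by omega)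
  have hWsq : Squarefree (primorial w) := squarefree_primorial w
  have hW0 : primorial w ≠ 0 := hWsq.ne_zero
  have hW1 : 1 ≤ primorial w := Nat.pos_of_ne_zero hW0
  obtain ⟨W, hWd⟩ : ∃ W : ℕ, W = primorial w := ⟨_, rfl⟩
  obtain ⟨X₁, hX₁⟩ := hw₁ w hw1'
  rw [← hWd] at h2 hWsq hW0 hW1 hX₁ ⊢
  have hWr : (0 : ℝ) < W := by exact_mod_cast hW1
  obtain ⟨N₀, hN₀⟩ := hlam W hWsq (t + 1) (by linarith) 1 one_pos
  obtain ⟨X₂, hX₂⟩ := yX_props t 1 ht one_pos (max N₀ 2)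
  have hlogev : ∀ᶠ X : ℕ in Filter.atTop,
      Real.log (X : ℝ) ≤ ε / (4 * ((t + 1) * W)) * X := by
    have h3 := (Real.isLittleO_log_id_atTop.bound
      (show 0 < ε / (4 * ((t + 1) * W)) by positivity))
    have h4 := (tendsto_natCast_atTop_atTop (R := ℝ)).eventually h3
    filter_upwards [h4] with X hX
    have h5 : ‖(id (X : ℝ) : ℝ)‖ = X := by
      rw [id, Real.norm_eq_abs, abs_of_nonneg (Nat.cast_nonneg X)]
    rw [h5] at hX
    exact (le_abs_self _).trans hX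
  obtain ⟨X₃, hX₃⟩ := Filter.eventually_atTop.1 hlogev
  refine ⟨N₀ + X₁ + X₂ + X₃ + 3, fun X hX => ?_⟩
  obtain ⟨hy1, hy2⟩ := hX₂ X (by omega)
  have hdef := hX₁ X (by omega)
  have hlogX := hX₃ X (by omega)
  obtain ⟨y, hyd⟩ : ∃ y : ℕ, y = yX t X := ⟨_, rfl⟩
  have hy2' : (y : ℝ) ≤ (t + 1) * Real.log X * Real.log y := by
    rw [hyd]
    exact hy2
  have hyN : N₀ ≤ y := by
    rw [hyd]
    exact (le_max_left _ _).trans hy1
  have hy2n : 2 ≤ y := by
    rw [hyd]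
    exact (le_max_right _ _).trans hy1
  rw [← hyd] at hdef ⊢
  have hX0 : (0 : ℝ) ≤ X := Nat.cast_nonneg X
  have hX3 : (3 : ℝ) ≤ X := by
    have : 3 ≤ X := by omega
    exact_mod_cast this
  have hyr : (2 : ℝ) ≤ y := by exact_mod_cast hy2n
  have hlX : 0 < Real.log X := Real.log_pos (by linarith)
  have hly : 0 < Real.log y := Real.log_pos (by linarith)
  have hratio0 : 0 ≤ (y : ℝ) / (Real.log X * Real.log y) := by positivity
  have hratio : (y : ℝ) / (Real.log X * Real.log y) ≤ t + 1 := by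
    rw [div_le_iff₀ (by positivity)]
    linarith
  have hl2 := hN₀ X (by omega) y hyN hy2'
  have hl2' : ∑ m ∈ Finset.Ioc (0 : ℤ) (X : ℤ), (lamQ W y (QQ 0 X) m) ^ 2 ≤
      (K₁ * (t + 1) ^ 2 + 1) * X := by
    refine hl2.trans (mul_le_mul_of_nonneg_right (add_le_add ?_ le_rfl) hX0)
    exact mul_le_mul_of_nonneg_left (pow_le_pow_left₀ hratio0 hratio 2) (by linarith)
  have hS2 := hSP W X
  have hΔ2 : ∑ m ∈ (Finset.Ioc (0 : ℤ) (X : ℤ)).filter (fun m => Even m),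
      (lamQ W y (QQ 0 X) m - t * SP W m) ^ 2 ≤ B₀ * X := by
    calc ∑ m ∈ (Finset.Ioc (0 : ℤ) (X : ℤ)).filter (fun m => Even m),
        (lamQ W y (QQ 0 X) m - t * SP W m) ^ 2
        ≤ ∑ m ∈ Finset.Ioc (0 : ℤ) (X : ℤ), (lamQ W y (QQ 0 X) m - t * SP W m) ^ 2 :=
          Finset.sum_le_sum_of_subset_of_nonneg (Finset.filter_subset _ _)
            fun m _ _ => sq_nonneg _
      _ ≤ ∑ m ∈ Finset.Ioc (0 : ℤ) (X : ℤ),
            (2 * (lamQ W y (QQ 0 X) m) ^ 2 + 2 * t ^ 2 * (SP W m) ^ 2) := by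
          refine Finset.sum_le_sum fun m _ => ?_
          nlinarith [sq_nonneg (lamQ W y (QQ 0 X) m + t * SP W m)]
      _ = 2 * ∑ m ∈ Finset.Ioc (0 : ℤ) (X : ℤ), (lamQ W y (QQ 0 X) m) ^ 2 +
            2 * t ^ 2 * ∑ m ∈ Finset.Ioc (0 : ℤ) (X : ℤ), (SP W m) ^ 2 := by
          rw [Finset.sum_add_distrib, Finset.mul_sum, Finset.mul_sum]
      _ ≤ 2 * ((K₁ * (t + 1) ^ 2 + 1) * X) + 2 * t ^ 2 * (K₂ * X) :=
          add_le_add (mul_le_mul_of_nonneg_left hl2' (by norm_num))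
            (mul_le_mul_of_nonneg_left hS2 (by positivity))
      _ = B₀ * X := by
          rw [hB₀]
          ring
  have hS2' : ∑ m ∈ (Finset.Ioc (0 : ℤ) (X : ℤ)).filter (fun m => Even m), (SP W m) ^ 2 ≤
      K₂ * X :=
    (Finset.sum_le_sum_of_subset_of_nonneg (Finset.filter_subset _ _)
      fun m _ _ => sq_nonneg _).trans hS2
  have heven := first_moment_le ((Finset.Ioc (0 : ℤ) (X : ℤ)).filter (fun m => Even m))
    (fun m => lamQ W y (QQ 0 X) m - t * SP W m) (fun m => SP W m) t (ε' * X) (B₀ * X) (K₂ * X)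
    δ M ht.le (fun m _ => SP_nonneg W m) hdef hΔ2 hS2' hδ hδ1 hM
  have hcardX : (((Finset.Ioc (0 : ℤ) (X : ℤ)).filter (fun m => Even m)).card : ℝ) ≤ X := by
    have h3 : ((Finset.Ioc (0 : ℤ) (X : ℤ)).filter (fun m => Even m)).card ≤ X := by
      refine (Finset.card_le_card (Finset.filter_subset _ _)).trans ?_
      rw [Int.card_Ioc]
      omega
    exact_mod_cast h3
  have heven2 : δ * (((Finset.Ioc (0 : ℤ) (X : ℤ)).filter (fun m => Even m)).card : ℝ) +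
      Real.sqrt (Real.exp (t * M) * (ε' * X) / δ ^ 2 + K₂ * X / M ^ 2) * Real.sqrt (B₀ * X) ≤
      ε / 4 * X + ε / 4 * X := by
    refine add_le_add ?_ ?_
    · exact mul_le_mul hδε hcardX (Nat.cast_nonneg _) (by positivity)
    · rw [← Real.sqrt_mul (by positivity)]
      have h3 : (Real.exp (t * M) * (ε' * X) / δ ^ 2 + K₂ * X / M ^ 2) * (B₀ * X) =
          (ε / 4 * X) ^ 2 := by
        have h4 : (Real.exp (t * M) * (ε' * X) / δ ^ 2 + K₂ * X / M ^ 2) * (B₀ * X) =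
            (Real.exp (t * M) * ε' / δ ^ 2 * B₀ + K₂ / M ^ 2 * B₀) * X ^ 2 := by ring
        rw [h4, hε'2, hM2]
        ring
      rw [h3, Real.sqrt_sq (by positivity)]
  have hodd : ∑ m ∈ (Finset.Ioc (0 : ℤ) (X : ℤ)).filter (fun m => ¬ Even m),
      |lamQ W y (QQ 0 X) m - t * SP W m| ≤ ε / 4 * X := by
    have h3 : ∑ m ∈ (Finset.Ioc (0 : ℤ) (X : ℤ)).filter (fun m => ¬ Even m),
        |lamQ W y (QQ 0 X) m - t * SP W m| =
        ∑ m ∈ (Finset.Ioc (0 : ℤ) (X : ℤ)).filter (fun m => ¬ Even m), lamQ W y (QQ 0 X) m := by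
      refine Finset.sum_congr rfl fun m hm => ?_
      rw [SP_odd W hW0 h2 m (Finset.mem_filter.1 hm).2, mul_zero, sub_zero,
        abs_of_nonneg (lamQ_nonneg W y hy2n _ m)]
    rw [h3]
    refine (sum_lam_odd_le W y X hW1 h2 hy2n).trans ?_
    have h4 : (y : ℝ) * W / Real.log y ≤ (t + 1) * W * Real.log X := by
      rw [div_le_iff₀ hly]
      have := mul_le_mul_of_nonneg_right hy2' hWr.le
      linarith
    refine h4.trans ?_
    have h5 := mul_le_mul_of_nonneg_left hlogX (show 0 ≤ (t + 1) * (W : ℝ) by positivity)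
    refine h5.trans (le_of_eq ?_)
    field_simp
  rw [← Finset.sum_filter_add_sum_filter_not (Finset.Ioc (0 : ℤ) (X : ℤ)) (fun m => Even m)]
  have h6 := heven.trans heven2
  have h7 : 0 ≤ ε * X := by positivity
  linarith

end Pool.Agent.Lib.MP_bae66e_nt.LL
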