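import Pool.Agent.Lib.MP_bae66e_nt.Mg.G043

/-!
# C06: linear combinations of shifted intensities
-/

set_option autoImplicit false

open Finset

namespace Pool.Agent.Lib.MP_bae66e_nt.LL

private lemma C06_abs_vv_le (W y : ℕ) (hW : 1 ≤ W) (hlog : 0 < Real.log y) (n : ℤ) :
    |vv W y n| ≤ W / Real.log y := by
  unfold vv gW
  rw [abs_div, abs_of_pos hlog]
  apply div_le_div_of_nonneg_right _ hlog.le
  split_ifs
  · rw [abs_of_nonneg (nu_nonneg W n)]
    exact nu_le W hW n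
  · simp

private lemma C06_abs_sum_le (W y N : ℕ) (hW : 1 ≤ W) (hlog : 0 < Real.log y)
    (c : ℤ → ℕ → ℝ) (r : ℕ → ℕ) (A : ℝ) (hA : ∀ m s, |c m s| ≤ A) (m q : ℤ) :
    |∑ s ∈ Finset.range N, c m s * vv W y (m + r s - q)| ≤ N * A * W / Real.log y := by
  have hA0 : 0 ≤ A := (abs_nonneg _).trans (hA 0 0)
  refine (Finset.abs_sum_le_sum_abs _ _).trans ?_
  have h1 : ∀ s ∈ Finset.range N, |c m s * vv W y (m + r s - q)| ≤ A * (W / Real.log y) := by
    intro s _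
    rw [abs_mul]
    exact mul_le_mul (hA m s) (C06_abs_vv_le W y hW hlog _) (abs_nonneg _) hA0
  refine (Finset.sum_le_sum h1).trans (le_of_eq ?_)
  rw [Finset.sum_const, Finset.card_range, nsmul_eq_mul]
  ring

private lemma C06_zero (W y : ℕ) (n : ℤ) (h : ¬ (1 ≤ n ∧ n ≤ (y : ℤ))) : vv W y n = 0 := by
  unfold vv gW
  rw [if_neg h, zero_div]

private lemma C06_in (W y : ℕ) (n : ℤ) (h : 1 ≤ n ∧ n ≤ (y : ℤ)) :
    vv W y n = nu W n / Real.log y := by
  unfold vv gW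
  rw [if_pos h]

/-- General principle. Let `W, S ≥ 1`, `c(m, s)` (`s < N`) be real numbers with `|c(m, s)| ≤ A`, and
`r(s) ∈ [0, R]` natural numbers, and let `k : ℤ → ℤ → ℝ` with `|k(m, q)| ≤ B` satisfy, for all
integers `m`, `q`: `∑_{s < N} c(m, s) nu W (m + r(s) - q) = k(m, q)`. Then
`∑_{m ≤ X} |∑_{q ∈ Q, 1 ≤ m - q ≤ y} k(m, q)/log y - ∑_{s < N} c(m, s) λ(m + r(s))|
 ≤ #Q (2 R + 2) (B + N A W)/log y`, for `λ = lamQ W y Q`, `y ≥ R + 2`.

PROOF. For each `q ∈ Q` the contribution to the difference is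
`k(m, q) 1_{1 ≤ m - q ≤ y}/log y - ∑_s c(m, s) vv W y (m + r(s) - q)`. If `1 ≤ m - q` and
`m - q + R ≤ y` all arguments are in `[1, y]` and the contribution is `0`. If `m - q > y` or
`m - q + R < 1` both terms are `0`. The remaining `m` have `m - q ∈ [1 - R, 0]` or
`m - q ∈ [y - R + 1, y]`: at most `2 R` values, where the contribution is at most
`(B + N A W)/log y` (`nu W ≤ W`). -/
lemma combination_le (W y X N R : ℕ) (hW : 1 ≤ W) (hy : R + 2 ≤ y) (Q : Finset ℕ)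
    (c : ℤ → ℕ → ℝ) (r : ℕ → ℕ) (k : ℤ → ℤ → ℝ) (A B : ℝ) (hA : ∀ m s, |c m s| ≤ A)
    (hB : ∀ m q, |k m q| ≤ B) (hr : ∀ s, s < N → r s ≤ R)
    (hk : ∀ m q : ℤ, ∑ s ∈ Finset.range N, c m s * nu W (m + r s - q) = k m q) :
    ∑ m ∈ Finset.Ioc (0 : ℤ) (X : ℤ),
      |(∑ q ∈ Q.filter (fun q : ℕ => 1 ≤ m - q ∧ m - q ≤ (y : ℤ)), k m q / Real.log y)
        - ∑ s ∈ Finset.range N, c m s * lamQ W y Q (m + r s)|
      ≤ (Q.card : ℝ) * (2 * R + 2) * (B + N * A * W) / Real.log y := by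
  have hlog : 0 < Real.log y := Real.log_pos (by exact_mod_cast (by omega : 1 < y))
  have hB0 : 0 ≤ B := (abs_nonneg _).trans (hB 0 0)
  have hA0 : 0 ≤ A := (abs_nonneg _).trans (hA 0 0)
  set D : ℤ → ℕ → ℝ := fun m q =>
    (if 1 ≤ m - (q : ℤ) ∧ m - (q : ℤ) ≤ (y : ℤ) then k m q / Real.log y else 0)
      - ∑ s ∈ Finset.range N, c m s * vv W y (m + r s - q) with hD
  have hsplit : ∀ m : ℤ,
      (∑ q ∈ Q.filter (fun q : ℕ => 1 ≤ m - q ∧ m - q ≤ (y : ℤ)), k m q / Real.log y)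
        - ∑ s ∈ Finset.range N, c m s * lamQ W y Q (m + r s) = ∑ q ∈ Q, D m q := by
    intro m
    simp only [hD]
    rw [Finset.sum_sub_distrib, Finset.sum_filter]
    congr 1
    rw [Finset.sum_comm]
    refine Finset.sum_congr rfl (fun s _ => ?_)
    unfold lamQ
    rw [Finset.mul_sum]
  set K : ℝ := (B + N * A * W) / Real.log y with hK
  have hK0 : 0 ≤ K := by positivity
  have hDb : ∀ (m : ℤ) (q : ℕ), |D m q| ≤
      if ((q : ℤ) + 1 - R ≤ m ∧ m ≤ q) ∨ ((q : ℤ) + y - R + 1 ≤ m ∧ m ≤ q + y) then K else 0 := by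
    intro m q
    split_ifs with hbad
    · simp only [hD]
      refine (abs_sub _ _).trans ?_
      have h1 := C06_abs_sum_le W y N hW hlog c r A hA m q
      have h2 : |if 1 ≤ m - (q : ℤ) ∧ m - (q : ℤ) ≤ (y : ℤ) then k m q / Real.log y else 0|
          ≤ B / Real.log y := by
        split_ifs
        · rw [abs_div, abs_of_pos hlog]
          exact div_le_div_of_nonneg_right (hB m q) hlog.le
        · rw [abs_zero]; positivity
      rw [hK, add_div]
      exact add_le_add h2 h1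
    · have h0 : D m q = 0 := by
        simp only [hD]
        by_cases hc1 : 1 ≤ m - (q : ℤ) ∧ m - (q : ℤ) ≤ (y : ℤ)
        · rw [if_pos hc1]
          have hin : m - (q : ℤ) + R ≤ y := by
            by_contra hcon
            apply hbad
            right
            omega
          have h1 : ∀ s ∈ Finset.range N, c m s * vv W y (m + r s - q)
              = (c m s * nu W (m + r s - q)) / Real.log y := by
            intro s hs
            have hrs := hr s (Finset.mem_range.mp hs)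
            have hrs' : ((r s : ℕ) : ℤ) ≤ R := by exact_mod_cast hrs
            have hrs0 : (0 : ℤ) ≤ ((r s : ℕ) : ℤ) := Int.natCast_nonneg _
            rw [C06_in W y _ (by omega)]
            ring
          rw [Finset.sum_congr rfl h1, ← Finset.sum_div, hk m q, sub_self]
        · rw [if_neg hc1]
          have h1 : ∀ s ∈ Finset.range N, c m s * vv W y (m + r s - q) = 0 := by
            intro s hs
            have hrs := hr s (Finset.mem_range.mp hs)
            have hrs' : ((r s : ℕ) : ℤ) ≤ R := by exact_mod_cast hrs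
            have hrs0 : (0 : ℤ) ≤ ((r s : ℕ) : ℤ) := Int.natCast_nonneg _
            rw [C06_zero W y _ (by
              intro hcon
              apply hbad
              left
              omega), mul_zero]
          rw [Finset.sum_eq_zero h1, sub_zero]
      rw [h0, abs_zero]
  have hq : ∀ q ∈ Q, ∑ m ∈ Finset.Ioc (0 : ℤ) (X : ℤ), |D m q| ≤ (2 * R + 2) * K := by
    intro q _
    refine (Finset.sum_le_sum (fun m _ => hDb m q)).trans ?_
    rw [← Finset.sum_filter, Finset.sum_const, nsmul_eq_mul]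
    apply mul_le_mul_of_nonneg_right _ hK0
    have h1 : ((Finset.Ioc (0 : ℤ) (X : ℤ)).filter (fun m =>
        ((q : ℤ) + 1 - R ≤ m ∧ m ≤ q) ∨ ((q : ℤ) + y - R + 1 ≤ m ∧ m ≤ q + y)))
        ⊆ Finset.Icc ((q : ℤ) + 1 - R) q ∪ Finset.Icc ((q : ℤ) + y - R + 1) (q + y) := by
      intro m hm
      rw [Finset.mem_filter] at hm
      rw [Finset.mem_union, Finset.mem_Icc, Finset.mem_Icc]
      exact hm.2
    have h2 := (Finset.card_le_card h1).trans (Finset.card_union_le _ _)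
    rw [Int.card_Icc, Int.card_Icc] at h2
    have h3 : ((Finset.Ioc (0 : ℤ) (X : ℤ)).filter (fun m =>
        ((q : ℤ) + 1 - R ≤ m ∧ m ≤ q) ∨ ((q : ℤ) + y - R + 1 ≤ m ∧ m ≤ q + y))).card
        ≤ 2 * R + 2 := by omega
    exact_mod_cast h3
  calc ∑ m ∈ Finset.Ioc (0 : ℤ) (X : ℤ),
      |(∑ q ∈ Q.filter (fun q : ℕ => 1 ≤ m - q ∧ m - q ≤ (y : ℤ)), k m q / Real.log y)
        - ∑ s ∈ Finset.range N, c m s * lamQ W y Q (m + r s)|
      = ∑ m ∈ Finset.Ioc (0 : ℤ) (X : ℤ), |∑ q ∈ Q, D m q| :=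
        Finset.sum_congr rfl (fun m _ => by rw [hsplit m])
    _ ≤ ∑ m ∈ Finset.Ioc (0 : ℤ) (X : ℤ), ∑ q ∈ Q, |D m q| :=
        Finset.sum_le_sum (fun m _ => Finset.abs_sum_le_sum_abs _ _)
    _ = ∑ q ∈ Q, ∑ m ∈ Finset.Ioc (0 : ℤ) (X : ℤ), |D m q| := Finset.sum_comm
    _ ≤ ∑ _q ∈ Q, (2 * R + 2) * K := Finset.sum_le_sum hq
    _ = (Q.card : ℝ) * (2 * R + 2) * (B + N * A * W) / Real.log y := by
        rw [Finset.sum_const, nsmul_eq_mul, hK]
        ring

/-- Averaging to a smaller level: for coprime squarefree `W₁`, `V`, and `y ≥ W₁ V + 2`: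
`∑_{m ≤ X} |λ_{W₁}(m) - (1/V) ∑_{s < V} λ_{W₁ V}(m + W₁ s)| ≤ #Q (2 W₁ V + 2) 2 (W₁ V)/log y`.

PROOF. `combination_le` with `W = W₁ V`, `c = 1/V`, `r(s) = W₁ s`, `N = V`, `R = W₁ V`,
`k(m, q) = nu W₁ (m - q)`: `(1/V) ∑_{s < V} nu (W₁ V) (n + W₁ s) = nu W₁ n (1/V) ∑_s nu V (n + W₁ s)
= nu W₁ n` (`nu_mul`, `nu_periodic`, `sum_period_affine`, period sum `V`). -/
lemma average_level (W₁ V y X : ℕ) (h1 : Squarefree W₁) (hV : Squarefree V)
    (hc : Nat.Coprime W₁ V) (hy : W₁ * V + 2 ≤ y) (Q : Finset ℕ) :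
    ∑ m ∈ Finset.Ioc (0 : ℤ) (X : ℤ),
      |lamQ W₁ y Q m - 1 / (V : ℝ) * ∑ s ∈ Finset.range V, lamQ (W₁ * V) y Q (m + W₁ * s)|
      ≤ (Q.card : ℝ) * (2 * (W₁ * V) + 2) * (2 * (W₁ * V)) / Real.log y := by
  have hV1 : 1 ≤ V := Nat.one_le_iff_ne_zero.mpr hV.ne_zero
  have hW1 : 1 ≤ W₁ := Nat.one_le_iff_ne_zero.mpr h1.ne_zero
  have hVR : (1 : ℝ) ≤ V := by exact_mod_cast hV1
  have hWR : (1 : ℝ) ≤ W₁ := by exact_mod_cast hW1
  have hV0 : (V : ℝ) ≠ 0 := by linarith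
  have hWV : 1 ≤ W₁ * V := Nat.mul_pos hW1 hV1
  have hlog : 0 < Real.log y := Real.log_pos (by exact_mod_cast (by omega : 1 < y))
  have hsumV : ∀ n : ℤ, ∑ s ∈ Finset.range V, nu V (n + W₁ * s) = V := by
    intro n
    rw [sum_period_affine W₁ V hV1 hc (nu V) (fun a b h => nu_periodic V a b h) n]
    have h2 := sum_nu_eq_SS V hV (![0] : Fin 1 → ℤ)
    have h3 : SS V (![0] : Fin 1 → ℤ) = 1 := by
      unfold SS
      apply Finset.prod_eq_one
      intro p hp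
      have hpp := Nat.prime_of_mem_primeFactors hp
      have hp1 : (1 : ℝ) < p := by exact_mod_cast hpp.one_lt
      have h4 : nup p (![0] : Fin 1 → ℤ) = 1 := by
        unfold nup
        simp
      rw [h4, pow_one]
      have h5 : 1 - 1 / (p : ℝ) ≠ 0 := by
        have : 1 / (p : ℝ) < 1 := (div_lt_one (by linarith)).2 hp1
        linarith
      push_cast
      exact div_self h5
    rw [h3, mul_one] at h2
    rw [← h2]
    refine Finset.sum_congr rfl (fun c _ => ?_)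
    simp
  have hkey := combination_le (W₁ * V) y X V (W₁ * V) hWV hy Q (fun _ _ => 1 / (V : ℝ))
    (fun s => W₁ * s) (fun m q => nu W₁ (m - q)) (1 / (V : ℝ)) W₁
    (fun _ _ => le_of_eq (abs_of_nonneg (by positivity)))
    (fun m q => by
      rw [abs_of_nonneg (nu_nonneg W₁ _)]
      exact nu_le W₁ hW1 _)
    (fun s hs => Nat.mul_le_mul_left W₁ hs.le)
    (fun m q => by
      have e1 : ∀ s ∈ Finset.range V, 1 / (V : ℝ) * nu (W₁ * V) (m + ((W₁ * s : ℕ) : ℤ) - q)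
          = (1 / (V : ℝ) * nu W₁ (m - q)) * nu V ((m - q) + W₁ * s) := by
        intro s _
        rw [nu_mul W₁ V hc]
        have e2 : nu W₁ (m + ((W₁ * s : ℕ) : ℤ) - q) = nu W₁ (m - q) := by
          apply nu_periodic
          apply Int.modEq_iff_dvd.mpr
          exact ⟨-s, by push_cast; ring⟩
        have e3 : m + ((W₁ * s : ℕ) : ℤ) - q = (m - q) + W₁ * s := by push_cast; ring
        rw [e2, e3]
        ring
      rw [Finset.sum_congr rfl e1, ← Finset.mul_sum, hsumV]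
      field_simp)
  have hlam : ∀ m : ℤ, lamQ W₁ y Q m
      = ∑ q ∈ Q.filter (fun q : ℕ => 1 ≤ m - (q : ℤ) ∧ m - (q : ℤ) ≤ (y : ℤ)),
        nu W₁ (m - q) / Real.log y := by
    intro m
    unfold lamQ
    rw [Finset.sum_filter]
    refine Finset.sum_congr rfl (fun q _ => ?_)
    split_ifs with h
    · exact C06_in W₁ y _ h
    · exact C06_zero W₁ y _ h
  have hL : ∑ m ∈ Finset.Ioc (0 : ℤ) (X : ℤ),
      |lamQ W₁ y Q m - 1 / (V : ℝ) * ∑ s ∈ Finset.range V, lamQ (W₁ * V) y Q (m + W₁ * s)|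
      = ∑ m ∈ Finset.Ioc (0 : ℤ) (X : ℤ),
      |(∑ q ∈ Q.filter (fun q : ℕ => 1 ≤ m - (q : ℤ) ∧ m - (q : ℤ) ≤ (y : ℤ)),
        nu W₁ (m - q) / Real.log y)
        - ∑ s ∈ Finset.range V, 1 / (V : ℝ) * lamQ (W₁ * V) y Q (m + ((W₁ * s : ℕ) : ℤ))| := by
    refine Finset.sum_congr rfl (fun m _ => ?_)
    rw [hlam m, Finset.mul_sum]
    push_cast
    rfl
  rw [hL]
  refine hkey.trans ?_
  apply div_le_div_of_nonneg_right _ hlog.le
  have e1 : (W₁ : ℝ) + V * (1 / V) * ((W₁ * V : ℕ) : ℝ) ≤ 2 * (W₁ * V) := by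
    have e2 : (V : ℝ) * (1 / V) = 1 := by field_simp
    rw [e2]
    push_cast
    nlinarith
  have e3 : (0 : ℝ) ≤ (Q.card : ℝ) * (2 * (W₁ * V) + 2) := by positivity
  push_cast at e1 ⊢
  exact mul_le_mul_of_nonneg_left e1 e3

end Pool.Agent.Lib.MP_bae66e_nt.LL
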