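import Pool.Agent.Lib.MP_bae66e_nt.LL.C.C05
import Pool.Agent.Lib.MP_bae66e_nt.LL.C.C06

/-!
# C07: smallness in mean at a fixed level
-/

set_option autoImplicit false

open Finset

namespace Pool.Agent.Lib.MP_bae66e_nt.LL

private lemma C07_tend (t : ℝ) (ht : 0 < t) : Filter.Tendsto
    (fun X : ℕ => t * Real.log X * Real.log (Real.log X)) Filter.atTop Filter.atTop := by
  have h1 : Filter.Tendsto (fun X : ℕ => Real.log (X : ℝ)) Filter.atTop Filter.atTop :=
    Real.tendsto_log_atTop.comp tendsto_natCast_atTop_atTop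
  exact (h1.const_mul_atTop ht).atTop_mul_atTop₀ (Real.tendsto_log_atTop.comp h1)

private lemma C07_yX_tend (t : ℝ) (ht : 0 < t) :
    Filter.Tendsto (fun X : ℕ => yX t X) Filter.atTop Filter.atTop :=
  (tendsto_nat_floor_atTop (α := ℝ)).comp (C07_tend t ht)

/-- For fixed constants, `#QQ 0 X * A / log (yX t X) ≤ ε X` and `A (yX t X) ≤ ε X` and
`y = yX t X ≥ A` for large `X`. (`#QQ 0 X ≤ 5 X/log X` or just `≤ X`, and `log (yX t X) → ∞`.) -/
lemma edge_small (t : ℝ) (ht : 0 < t) (A ε : ℝ) (hA : 0 ≤ A) (hε : 0 < ε) : ∃ X₀ : ℕ, ∀ X : ℕ,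
    X₀ ≤ X → ((QQ 0 X).card : ℝ) * A / Real.log (yX t X) ≤ ε * X ∧
      A * (yX t X : ℝ) ≤ ε * X ∧ A ≤ (yX t X : ℝ) ∧ 2 ≤ yX t X := by
  have h1 : Filter.Tendsto (fun X : ℕ => Real.log (X : ℝ)) Filter.atTop Filter.atTop :=
    Real.tendsto_log_atTop.comp tendsto_natCast_atTop_atTop
  have h2 : Filter.Tendsto (fun X : ℕ => ((yX t X : ℕ) : ℝ)) Filter.atTop Filter.atTop :=
    tendsto_natCast_atTop_atTop.comp (C07_yX_tend t ht)
  have h3 : Filter.Tendsto (fun X : ℕ => Real.log ((yX t X : ℕ) : ℝ)) Filter.atTop Filter.atTop :=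
    Real.tendsto_log_atTop.comp h2
  have e1 := h3.eventually_ge_atTop (max (A / ε) 1)
  have e2 := h2.eventually_ge_atTop (max A 2)
  have e3 := h1.eventually_ge_atTop 1
  have hc : 0 < ε / (A * t + 1) := by positivity
  have e4 := tendsto_natCast_atTop_atTop.eventually
    ((Real.isLittleO_pow_log_id_atTop (n := 2)).bound hc)
  obtain ⟨X₀, hX₀⟩ := Filter.eventually_atTop.mp ((e1.and e2).and (e3.and e4))
  refine ⟨X₀, fun X hX => ?_⟩
  obtain ⟨⟨f1, f2⟩, f3, f4⟩ := hX₀ X hX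
  have f1a : A / ε ≤ Real.log ((yX t X : ℕ) : ℝ) := (le_max_left _ _).trans f1
  have f1b : 1 ≤ Real.log ((yX t X : ℕ) : ℝ) := (le_max_right _ _).trans f1
  have hcard : ((QQ 0 X).card : ℝ) ≤ X := by
    have : (QQ 0 X).card ≤ X := by
      unfold QQ
      refine (Finset.card_filter_le _ _).trans ?_
      rw [Nat.card_Ioc]
      omega
    exact_mod_cast this
  have hX0 : (0 : ℝ) ≤ X := Nat.cast_nonneg X
  refine ⟨?_, ?_, (le_max_left _ _).trans f2, ?_⟩
  · rw [div_le_iff₀ (by linarith)]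
    rw [div_le_iff₀ hε] at f1a
    calc ((QQ 0 X).card : ℝ) * A ≤ X * A := mul_le_mul_of_nonneg_right hcard hA
      _ ≤ X * (Real.log ((yX t X : ℕ) : ℝ) * ε) := mul_le_mul_of_nonneg_left f1a hX0
      _ = ε * X * Real.log ((yX t X : ℕ) : ℝ) := by ring
  · simp only [id] at f4
    rw [Real.norm_of_nonneg (by positivity), Real.norm_of_nonneg hX0] at f4
    have hl0 : 0 ≤ Real.log (X : ℝ) := by linarith
    have hll : Real.log (Real.log (X : ℝ)) ≤ Real.log (X : ℝ) := by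
      have := Real.log_le_sub_one_of_pos (show 0 < Real.log (X : ℝ) by linarith)
      linarith
    have hll0 : 0 ≤ Real.log (Real.log (X : ℝ)) := Real.log_nonneg f3
    have hy : ((yX t X : ℕ) : ℝ) ≤ t * Real.log X * Real.log (Real.log X) :=
      Nat.floor_le (by positivity)
    have hy2 : ((yX t X : ℕ) : ℝ) ≤ t * (Real.log X) ^ 2 := by
      refine hy.trans ?_
      have : Real.log X * Real.log (Real.log X) ≤ Real.log X * Real.log X :=
        mul_le_mul_of_nonneg_left hll hl0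
      nlinarith
    have hAt : 0 < A * t + 1 := by positivity
    have h5 : (A * t + 1) * (Real.log X) ^ 2 ≤ ε * X := by
      have := mul_le_mul_of_nonneg_left f4 hAt.le
      have e : (A * t + 1) * (ε / (A * t + 1) * X) = ε * X := by field_simp
      linarith
    calc A * ((yX t X : ℕ) : ℝ) ≤ A * (t * (Real.log X) ^ 2) := mul_le_mul_of_nonneg_left hy2 hA
      _ ≤ (A * t + 1) * (Real.log X) ^ 2 := by nlinarith [sq_nonneg (Real.log X)]
      _ ≤ ε * X := h5
  · have := (le_max_right _ _).trans f2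
    exact_mod_cast this

private lemma C07_shift (g : ℤ → ℝ) (X W : ℕ) (a : ℤ) (ha : 0 ≤ a) (haW : a ≤ W) (B : ℝ)
    (hB : ∀ n, |g n| ≤ B) :
    ∑ m ∈ Finset.Ioc (0 : ℤ) (X : ℤ), |g (m + a)|
      ≤ (∑ m ∈ Finset.Ioc (0 : ℤ) (X : ℤ), |g m|) + W * B := by
  have h1 : ∑ m ∈ Finset.Ioc (0 : ℤ) (X : ℤ), |g (m + a)|
      = ∑ n ∈ (Finset.Ioc (0 : ℤ) (X : ℤ)).image (fun m => m + a), |g n| := by
    rw [Finset.sum_image]
    intro x _ z _ hxz
    simpa using hxz
  have h2 : (Finset.Ioc (0 : ℤ) (X : ℤ)).image (fun m => m + a)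
      ⊆ Finset.Ioc (0 : ℤ) (X : ℤ) ∪ Finset.Ioc (X : ℤ) (X + W) := by
    intro x hx
    rw [Finset.mem_image] at hx
    obtain ⟨m, hm, rfl⟩ := hx
    rw [Finset.mem_Ioc] at hm
    rw [Finset.mem_union, Finset.mem_Ioc, Finset.mem_Ioc]
    omega
  have hdisj : Disjoint (Finset.Ioc (0 : ℤ) (X : ℤ)) (Finset.Ioc (X : ℤ) (X + W)) := by
    rw [Finset.disjoint_left]
    intro x hx hx2
    rw [Finset.mem_Ioc] at hx hx2
    omega
  rw [h1]
  refine (Finset.sum_le_sum_of_subset_of_nonneg h2 (fun _ _ _ => abs_nonneg _)).trans ?_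
  rw [Finset.sum_union hdisj]
  have h3 : ∑ n ∈ Finset.Ioc (X : ℤ) (X + W), |g n| ≤ W * B := by
    refine (Finset.sum_le_sum (fun n _ => hB n)).trans (le_of_eq ?_)
    rw [Finset.sum_const, Int.card_Ioc, nsmul_eq_mul]
    congr 1
    have : ((X : ℤ) + W - X).toNat = W := by omega
    rw [this]
  linarith

/-- Under the limit law, for every fixed `w` (level `W₁ = primorial w`), `t > 0`, `ε > 0` and large `X`:
`∑_{m ≤ X} |λ(m) - t SP W₁ m| ≤ ε X`.

PROOF. Let `w₀` be as in `L1_small` for `ε/4`, `w' = max w w₀`, `primorial w' = W₁ V`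
(`primorial_split`, E14). `average_level`, `SP_average` and the triangle inequality:
`∑_m |λ_{W₁}(m) - t SP W₁ m| ≤ edge + (1/V) ∑_{s < V} ∑_{m ≤ X} |λ_{W₁V}(m + W₁ s) - t SP(m + W₁ s)|`,
and each inner sum is at most the sum over `(0, X]` (`≤ (ε/4) X`) plus the sum over
`(X, X + W₁ V]`, where each term is at most `y W/log y + t W ≤ (1 + t) y W`, `W = W₁ V`
(`lamQ_le`, `SP_le`; `log y ≥ 1`): in total `≤ W² (1 + t) y ≤ (ε/4) X` for large `X`
(`edge_small`). -/
theorem L1_fixed (w : ℕ) (t : ℝ) (ht : 0 < t) (hLL : LimitLawAt t) (ε : ℝ) (hε : 0 < ε) :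
    ∃ X₀ : ℕ, ∀ X : ℕ, X₀ ≤ X →
      ∑ m ∈ Finset.Ioc (0 : ℤ) (X : ℤ),
        |lamQ (primorial w) (yX t X) (QQ 0 X) m - t * SP (primorial w) m| ≤ ε * X := by
  obtain ⟨w₀, hw₀⟩ := L1_small t ht hLL (ε / 4) (by linarith)
  obtain ⟨V, hV1, hV2, hV3, _⟩ := primorial_split w (max w w₀) (le_max_left _ _)
  obtain ⟨X₁, hX₁⟩ := hw₀ (max w w₀) (le_max_right _ _)
  have hsqW : Squarefree (primorial w) := _root_.squarefree_primorial w
  have hsq' : Squarefree (primorial (max w w₀)) := _root_.squarefree_primorial _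
  have hVpos : 1 ≤ V := Nat.one_le_iff_ne_zero.mpr hV2.ne_zero
  have hVR : (0 : ℝ) < V := by exact_mod_cast hVpos
  set W₁ : ℕ := primorial w with hW₁
  have hW₁pos : 1 ≤ W₁ := Nat.one_le_iff_ne_zero.mpr hsqW.ne_zero
  rw [hV1] at hX₁ hsq'
  set W : ℕ := W₁ * V with hW
  have hWpos : 1 ≤ W := Nat.mul_pos hW₁pos hVpos
  have hWR : (1 : ℝ) ≤ W := by exact_mod_cast hWpos
  obtain ⟨X₂, hX₂⟩ := edge_small t ht ((2 * W + 2) * (2 * W)) (ε / 4) (by positivity)
    (by linarith)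
  obtain ⟨X₃, hX₃⟩ := edge_small t ht ((2 + t) * W ^ 2) (ε / 4) (by positivity) (by linarith)
  obtain ⟨X₄, hX₄⟩ := edge_small t ht (W + 2) (ε / 4) (by positivity) (by linarith)
  refine ⟨max (max X₁ X₂) (max X₃ X₄), fun X hX => ?_⟩
  have hXa := hX₁ X ((le_max_left _ _).trans ((le_max_left _ _).trans hX))
  obtain ⟨hb1, _, _, hb4⟩ := hX₂ X ((le_max_right _ _).trans ((le_max_left _ _).trans hX))
  obtain ⟨_, hc2, _, _⟩ := hX₃ X ((le_max_left _ _).trans ((le_max_right _ _).trans hX))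
  obtain ⟨_, _, hd3, _⟩ := hX₄ X ((le_max_right _ _).trans ((le_max_right _ _).trans hX))
  set y : ℕ := yX t X with hy
  set Q := QQ 0 X with hQ
  have hyR : (2 : ℝ) ≤ y := by exact_mod_cast hb4
  have hyW : W + 2 ≤ y := by exact_mod_cast hd3
  have hlog : 1 / 2 ≤ Real.log y := by
    have h1 := Real.log_two_gt_d9
    have h2 := Real.log_le_log (by norm_num) hyR
    linarith
  have hav := average_level W₁ V y X hsqW hV2 hV3 hyW Q
  set g : ℤ → ℝ := fun n => lamQ W y Q n - t * SP W n with hg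
  have hgB : ∀ n, |g n| ≤ (2 + t) * W * y := by
    intro n
    have e1 := lamQ_le W y hWpos hb4 Q n
    have e2 := lamQ_nonneg W y hb4 Q n
    have e3 := SP_le W hsq' n
    have e4 := SP_nonneg W n
    have e5 : (y : ℝ) * W / Real.log y ≤ 2 * (y * W) := by
      rw [div_le_iff₀ (by linarith)]
      have : 0 ≤ (y : ℝ) * W := by positivity
      nlinarith
    have e6 : t * SP W n ≤ t * W := mul_le_mul_of_nonneg_left e3 ht.le
    have e7 : 0 ≤ t * SP W n := mul_nonneg ht.le e4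
    have e8 : t * W ≤ t * W * y := by
      have : 0 ≤ t * W := by positivity
      nlinarith
    simp only [hg]
    rw [abs_le]
    constructor
    · nlinarith
    · nlinarith
  have hshift : ∀ s ∈ Finset.range V, ∑ m ∈ Finset.Ioc (0 : ℤ) (X : ℤ), |g (m + W₁ * s)|
      ≤ ε / 2 * X := by
    intro s hs
    rw [Finset.mem_range] at hs
    have h1 : (W₁ : ℤ) * s ≤ (W : ℤ) := by
      have : W₁ * s ≤ W₁ * V := Nat.mul_le_mul_left W₁ hs.le
      rw [hW]
      exact_mod_cast this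
    refine (C07_shift g X W (W₁ * s) (by positivity) h1 _ hgB).trans ?_
    have h2 : (W : ℝ) * ((2 + t) * W * y) = (2 + t) * W ^ 2 * y := by ring
    rw [h2]
    have h3 : ∑ m ∈ Finset.Ioc (0 : ℤ) (X : ℤ), |g m| ≤ ε / 4 * X := hXa
    linarith
  have htri : ∀ m ∈ Finset.Ioc (0 : ℤ) (X : ℤ), |lamQ W₁ y Q m - t * SP W₁ m|
      ≤ |lamQ W₁ y Q m - 1 / (V : ℝ) * ∑ s ∈ Finset.range V, lamQ W y Q (m + W₁ * s)|
        + 1 / (V : ℝ) * ∑ s ∈ Finset.range V, |g (m + W₁ * s)| := by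
    intro m _
    have e1 : lamQ W₁ y Q m - t * SP W₁ m
        = (lamQ W₁ y Q m - 1 / (V : ℝ) * ∑ s ∈ Finset.range V, lamQ W y Q (m + W₁ * s))
          + 1 / (V : ℝ) * ∑ s ∈ Finset.range V, g (m + W₁ * s) := by
      simp only [hg]
      rw [Finset.sum_sub_distrib, ← Finset.mul_sum, SP_average W₁ V hsqW hV2 hV3 m]
      ring
    rw [e1]
    refine (abs_add_le _ _).trans ?_
    rw [abs_mul, abs_of_nonneg (by positivity : (0 : ℝ) ≤ 1 / (V : ℝ))]
    have e2 := Finset.abs_sum_le_sum_abs (fun s : ℕ => g (m + W₁ * s)) (Finset.range V)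
    have e3 : (0 : ℝ) ≤ 1 / (V : ℝ) := by positivity
    have e4 := mul_le_mul_of_nonneg_left e2 e3
    linarith
  refine (Finset.sum_le_sum htri).trans ?_
  rw [Finset.sum_add_distrib, ← Finset.mul_sum, Finset.sum_comm]
  have e5 : 1 / (V : ℝ) * ∑ s ∈ Finset.range V, ∑ m ∈ Finset.Ioc (0 : ℤ) (X : ℤ),
      |g (m + W₁ * s)| ≤ ε / 2 * X := by
    have e6 := Finset.sum_le_sum hshift
    rw [Finset.sum_const, Finset.card_range, nsmul_eq_mul] at e6
    calc 1 / (V : ℝ) * ∑ s ∈ Finset.range V, ∑ m ∈ Finset.Ioc (0 : ℤ) (X : ℤ),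
          |g (m + W₁ * s)| ≤ 1 / (V : ℝ) * (V * (ε / 2 * X)) :=
          mul_le_mul_of_nonneg_left e6 (by positivity)
      _ = ε / 2 * X := by field_simp
  have e7 : (Q.card : ℝ) * (2 * (W₁ * V) + 2) * (2 * (W₁ * V)) / Real.log y ≤ ε / 4 * X := by
    have : (Q.card : ℝ) * (2 * (W₁ * V) + 2) * (2 * (W₁ * V)) / Real.log y
        = (Q.card : ℝ) * ((2 * W + 2) * (2 * W)) / Real.log y := by
      rw [hW]; push_cast; ring
    rw [this]
    exact hb1
  have e8 : (0 : ℝ) ≤ ε * X := by positivity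
  linarith

end Pool.Agent.Lib.MP_bae66e_nt.LL
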