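import Pool.Agent.Lib.MP_bae66e_nt.LL.C.C06

/-!
# C08: inversion of the convolution with `nu W`
-/

set_option autoImplicit false

open Finset

namespace Pool.Agent.Lib.MP_bae66e_nt.LL

private lemma C08_cop (p : ℕ) (hp : p.Prime) (n : ℤ) : IsCoprime n (p : ℤ) ↔ ¬ (p : ℤ) ∣ n := by
  rw [isCoprime_comm]
  exact (Nat.prime_iff_prime_int.mp hp).irreducible.coprime_iff_not_dvd

private lemma C08_nu_even (W : ℕ) (n : ℤ) : nu W (-n) = nu W n := by
  unfold nu
  by_cases h : IsCoprime n (W : ℤ)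
  · rw [if_pos h, if_pos (IsCoprime.neg_left_iff n (W : ℤ) |>.mpr h)]
  · rw [if_neg h, if_neg (fun h2 => h (IsCoprime.neg_left_iff n (W : ℤ) |>.mp h2))]

private lemma C08_sum_nu (W : ℕ) (hW : 1 ≤ W) : ∑ c ∈ Finset.range W, nu W (c : ℤ) = W := by
  unfold nu
  rw [← Finset.sum_filter, Finset.sum_const, nsmul_eq_mul]
  have h1 : ((Finset.range W).filter (fun c : ℕ => IsCoprime (c : ℤ) (W : ℤ))).card
      = Nat.totient W := by
    rw [Nat.totient_eq_card_coprime]
    congr 1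
    apply Finset.filter_congr
    intro c _
    rw [Nat.isCoprime_iff_coprime, Nat.coprime_comm]
  rw [h1]
  have h2 : (Nat.totient W : ℝ) ≠ 0 := by
    exact_mod_cast (Nat.totient_pos.mpr hW).ne'
  field_simp

private lemma C08_sum_nu_sub (V : ℕ) (hV : 1 ≤ V) (c : ℤ) :
    ∑ s ∈ Finset.range V, nu V (c - (s : ℤ)) = V := by
  have h1 := sum_period_affine 1 V hV (Nat.coprime_one_left V) (nu V)
    (fun n m h => nu_periodic V n m h) (-c)
  rw [C08_sum_nu V hV] at h1
  rw [← h1]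
  refine Finset.sum_congr rfl (fun s _ => ?_)
  rw [← C08_nu_even]
  congr 1
  push_cast
  ring

private lemma C08_split (W₀ W₁ : ℕ) (h0 : 1 ≤ W₀) (h1 : 1 ≤ W₁) (hc : Nat.Coprime W₀ W₁)
    (F G : ℤ → ℝ) (hF : ∀ n m : ℤ, n ≡ m [ZMOD (W₀ : ℤ)] → F n = F m)
    (hG : ∀ n m : ℤ, n ≡ m [ZMOD (W₁ : ℤ)] → G n = G m) :
    ∑ c ∈ Finset.range (W₀ * W₁), F c * G c
      = (∑ c ∈ Finset.range W₀, F c) * ∑ c ∈ Finset.range W₁, G c := by
  have hbij : ∑ c ∈ Finset.range (W₀ * W₁), F c * G c =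
      ∑ x ∈ Finset.range W₀ ×ˢ Finset.range W₁,
        F (((x.1 + W₀ * x.2 : ℕ) : ℤ)) * G (((x.1 + W₀ * x.2 : ℕ) : ℤ)) := by
    apply Finset.sum_nbij' (fun c : ℕ => (c % W₀, c / W₀)) (fun x : ℕ × ℕ => x.1 + W₀ * x.2)
    · intro c hc
      rw [Finset.mem_range] at hc
      rw [Finset.mem_product, Finset.mem_range, Finset.mem_range]
      exact ⟨Nat.mod_lt _ (by omega), Nat.div_lt_of_lt_mul hc⟩
    · rintro ⟨x, y⟩ hx
      rw [Finset.mem_product, Finset.mem_range, Finset.mem_range] at hx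
      rw [Finset.mem_range]
      obtain ⟨hx1, hx2⟩ := hx
      simp only at hx1 hx2 ⊢
      have h3 : W₀ * (y + 1) ≤ W₀ * W₁ := Nat.mul_le_mul_left W₀ hx2
      calc x + W₀ * y < W₀ + W₀ * y := by omega
        _ = W₀ * (y + 1) := by ring
        _ ≤ W₀ * W₁ := h3
    · intro c _
      exact Nat.mod_add_div c W₀
    · rintro ⟨x, y⟩ hx
      rw [Finset.mem_product, Finset.mem_range, Finset.mem_range] at hx
      obtain ⟨hx1, hx2⟩ := hx
      simp only at hx1 hx2 ⊢
      rw [Nat.add_mul_mod_self_left, Nat.mod_eq_of_lt hx1, Nat.add_mul_div_left _ _ (by omega),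
        Nat.div_eq_of_lt hx1, zero_add]
    · intro c _
      simp only [Nat.mod_add_div]
  rw [hbij, Finset.sum_product, Finset.sum_mul]
  apply Finset.sum_congr rfl
  intro b _
  have h2 : ∀ c ∈ Finset.range W₁, F (((b + W₀ * c : ℕ) : ℤ)) * G (((b + W₀ * c : ℕ) : ℤ)) =
      F (b : ℤ) * G ((b : ℤ) + W₀ * c) := by
    intro c _
    have e1 : F (((b + W₀ * c : ℕ) : ℤ)) = F (b : ℤ) := by
      apply hF
      apply Int.modEq_iff_dvd.mpr
      refine ⟨-c, ?_⟩
      push_cast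
      ring
    rw [e1]
    push_cast
    rfl
  rw [Finset.sum_congr rfl h2, ← Finset.mul_sum]
  congr 1
  exact sum_period_affine W₀ W₁ h1 hc G hG b

lemma kap_periodic (W : ℕ) (m n : ℤ) (h : m ≡ n [ZMOD (W : ℤ)]) : kap W m = kap W n := by
  unfold kap
  refine Finset.prod_congr rfl (fun p hp => ?_)
  have hpW : (p : ℤ) ∣ (W : ℤ) := by exact_mod_cast Nat.dvd_of_mem_primeFactors hp
  have h1 : (p : ℤ) ∣ m ↔ (p : ℤ) ∣ n := (h.of_dvd hpW).dvd_iff
  by_cases h2 : (p : ℤ) ∣ m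
  · rw [if_pos h2, if_pos (h1.mp h2)]
  · rw [if_neg h2, if_neg (fun h3 => h2 (h1.mpr h3))]

/-- each factor is `1/p` or `1/p - (p-1)/p = -(p-2)/p`, of absolute value `≤ 1`. -/
lemma abs_kap_le_one (W : ℕ) (n : ℤ) : |kap W n| ≤ 1 := by
  unfold kap
  rw [Finset.abs_prod]
  refine Finset.prod_le_one (fun _ _ => abs_nonneg _) (fun p hp => ?_)
  have hpp := Nat.prime_of_mem_primeFactors hp
  have hp2 : (2 : ℝ) ≤ p := by exact_mod_cast hpp.two_le
  have hp0 : (0 : ℝ) < p := by linarith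
  split_ifs with h
  · have e : 1 / (p : ℝ) - ((p : ℝ) - 1) / p = (2 - p) / p := by
      field_simp
      ring
    rw [e, abs_le]
    constructor
    · rw [le_div_iff₀ hp0]
      linarith
    · rw [div_le_iff₀ hp0]
      linarith
  · rw [sub_zero, abs_of_nonneg (by positivity), div_le_iff₀ hp0]
    linarith

lemma kap_mul (W₀ W₁ : ℕ) (h0 : W₀ ≠ 0) (h1 : W₁ ≠ 0) (hc : Nat.Coprime W₀ W₁) (n : ℤ) :
    kap (W₀ * W₁) n = kap W₀ n * kap W₁ n := by
  unfold kap
  rw [hc.primeFactors_mul, Finset.prod_union hc.disjoint_primeFactors]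

/-- One prime: `∑_{u < p} κ_p(u) nu p (n - u) = 1_{p ∣ n}`: it is
`(1/p) ∑_u nu p (n - u) - ((p-1)/p) nu p n = 1 - 1_{p ∤ n}`. -/
lemma kap_conv_prime (p : ℕ) (hp : p.Prime) (n : ℤ) :
    ∑ u ∈ Finset.range p, kap p u * nu p (n - u) = if (p : ℤ) ∣ n then 1 else 0 := by
  have hpR : (2 : ℝ) ≤ p := by exact_mod_cast hp.two_le
  have hp0 : (p : ℝ) ≠ 0 := by linarith
  have hp1 : (p : ℝ) - 1 ≠ 0 := by linarith
  have hkap : ∀ u ∈ Finset.range p, kap p u * nu p (n - u)
      = 1 / (p : ℝ) * nu p (n - u) - if u = 0 then ((p : ℝ) - 1) / p * nu p n else 0 := by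
    intro u hu
    rw [Finset.mem_range] at hu
    unfold kap
    rw [hp.primeFactors, Finset.prod_singleton]
    by_cases h0 : u = 0
    · subst h0
      rw [if_pos (by simp), if_pos rfl]
      simp only [Nat.cast_zero, sub_zero]
      ring
    · rw [if_neg, if_neg h0]
      · ring
      · intro h1
        have h2 : p ∣ u := by exact_mod_cast h1
        exact absurd (Nat.le_of_dvd (Nat.pos_of_ne_zero h0) h2) (by omega)
  rw [Finset.sum_congr rfl hkap, Finset.sum_sub_distrib, ← Finset.mul_sum,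
    C08_sum_nu_sub p hp.pos n, Finset.sum_ite_eq' (Finset.range p) 0,
    if_pos (Finset.mem_range.mpr hp.pos)]
  unfold nu
  rw [Nat.totient_prime hp, Nat.cast_sub hp.one_lt.le, Nat.cast_one]
  by_cases h1 : (p : ℤ) ∣ n
  · rw [if_pos h1, if_neg (fun h2 => (C08_cop p hp n).mp h2 h1)]
    field_simp
    ring
  · rw [if_neg h1, if_pos ((C08_cop p hp n).mpr h1)]
    field_simp
    ring

/-- Squarefree `W`: `∑_{u < W} κ_W(u) nu W (n - u) = 1_{W ∣ n}` (Chinese remainder theorem, induction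
on the prime factors, as in `sum_nu_mul`/`sum_nu_eq_SS` of E05). -/
theorem kap_conv (W : ℕ) (hW : Squarefree W) (n : ℤ) :
    ∑ u ∈ Finset.range W, kap W u * nu W (n - u) = if (W : ℤ) ∣ n then 1 else 0 := by
  induction W using Nat.strong_induction_on with
  | _ W ih =>
    by_cases hW1 : W = 1
    · subst hW1
      unfold kap nu
      simp [isCoprime_one_right]
    have hW0 : W ≠ 0 := hW.ne_zero
    have hp : W.minFac.Prime := Nat.minFac_prime hW1
    obtain ⟨e, he⟩ := Nat.minFac_dvd W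
    have hsq := hW
    rw [he, Nat.squarefree_mul_iff] at hsq
    obtain ⟨hpe, _, hesq⟩ := hsq
    have he0 : e ≠ 0 := by
      intro h0
      rw [h0, mul_zero] at he
      exact hW0 he
    have hlt : e < W := by
      have h2 := hp.two_le
      have h3 : 0 < e := Nat.pos_of_ne_zero he0
      calc e < 2 * e := by omega
        _ ≤ W.minFac * e := Nat.mul_le_mul_right e h2
        _ = W := he.symm
    have h4 := C08_split W.minFac e hp.pos (Nat.pos_of_ne_zero he0) hpe
      (fun u => kap W.minFac u * nu W.minFac (n - u)) (fun u => kap e u * nu e (n - u))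
      (fun a b hab => by
        rw [kap_periodic _ a b hab, nu_periodic _ (n - a) (n - b) (Int.ModEq.sub_left _ hab)])
      (fun a b hab => by
        rw [kap_periodic _ a b hab, nu_periodic _ (n - a) (n - b) (Int.ModEq.sub_left _ hab)])
    rw [← he, kap_conv_prime W.minFac hp n, ih e hlt hesq] at h4
    have h5 : ∀ u ∈ Finset.range W, kap W u * nu W (n - u)
        = (fun u : ℤ => kap W.minFac u * nu W.minFac (n - u)) u
          * (fun u : ℤ => kap e u * nu e (n - u)) u := by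
      intro u _
      have h6 : kap W u = kap W.minFac u * kap e u := by
        conv_lhs => rw [he]
        exact kap_mul W.minFac e hp.ne_zero he0 hpe u
      have h7 : nu W (n - u) = nu W.minFac (n - u) * nu e (n - u) := by
        conv_lhs => rw [he]
        exact nu_mul W.minFac e hpe (n - u)
      simp only
      rw [h6, h7]
      ring
    rw [Finset.sum_congr rfl h5, h4]
    have h8 : (W : ℤ) ∣ n ↔ ((W.minFac : ℕ) : ℤ) ∣ n ∧ (e : ℤ) ∣ n := by
      have h9 : (W : ℤ) = ((W.minFac : ℕ) : ℤ) * (e : ℤ) := by exact_mod_cast he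
      have h10 : IsCoprime ((W.minFac : ℕ) : ℤ) (e : ℤ) := Nat.isCoprime_iff_coprime.mpr hpe
      constructor
      · intro h11
        rw [h9] at h11
        exact ⟨(Dvd.intro _ rfl).trans h11, (Dvd.intro_left _ rfl).trans h11⟩
      · rintro ⟨h11, h12⟩
        rw [h9]
        exact h10.mul_dvd h11 h12
    by_cases h11 : ((W.minFac : ℕ) : ℤ) ∣ n
    · by_cases h12 : (e : ℤ) ∣ n
      · rw [if_pos h11, if_pos h12, if_pos (h8.mpr ⟨h11, h12⟩), mul_one]
      · rw [if_neg h12, if_neg (fun h => h12 (h8.mp h).2), mul_zero]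
    · rw [if_neg h11, if_neg (fun h => h11 (h8.mp h).1), zero_mul]

/-- Shifted form: `∑_{s < W} κ_W(m + s - b) nu W (m + s - q) = 1_{q ≡ b (W)}`: substitute
`u = m + s - b` (a full period, `sum_period_affine`), `nu W (u - (q - b)) = nu W ((q - b) - u)` as
`nu W` is even. -/
lemma kap_conv_shift (W : ℕ) (hW : Squarefree W) (m b q : ℤ) :
    ∑ s ∈ Finset.range W, kap W (m + s - b) * nu W (m + s - q)
      = if (W : ℤ) ∣ (q - b) then 1 else 0 := by
  have hW1 : 1 ≤ W := Nat.one_le_iff_ne_zero.mpr hW.ne_zero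
  have h1 := sum_period_affine 1 W hW1 (Nat.coprime_one_left W)
    (fun u => kap W u * nu W ((q - b) - u))
    (fun a c hac => by
      rw [kap_periodic _ a c hac,
        nu_periodic _ (q - b - a) (q - b - c) (Int.ModEq.sub_left _ hac)]) (m - b)
  rw [kap_conv W hW (q - b)] at h1
  rw [← h1]
  refine Finset.sum_congr rfl (fun s _ => ?_)
  rw [← C08_nu_even]
  congr 1
  · congr 1
    push_cast
    ring
  · congr 1
    push_cast
    ring

/-- `∑_{s < W} κ_W(m + s - b) SP W (m + s) = 1_{(b, W) = 1}/φ(W)`: by `SP_eq_conv` it is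
`(1/W) ∑_c nu W c ∑_s κ_W(m + s - b) nu W (m + s - c) = (1/W) ∑_{c ≡ b} nu W c = nu W b / W`
(`nu W (c - m - s) = nu W (m + s - c)`). -/
lemma kap_SP (W : ℕ) (hW : Squarefree W) (m b : ℤ) :
    ∑ s ∈ Finset.range W, kap W (m + s - b) * SP W (m + s) = nu W b / W := by
  have hW1 : 1 ≤ W := Nat.one_le_iff_ne_zero.mpr hW.ne_zero
  have hWZ : (0 : ℤ) < W := by exact_mod_cast hW1
  have h1 : ∀ s ∈ Finset.range W, kap W (m + s - b) * SP W (m + s)
      = ∑ c ∈ Finset.range W, 1 / (W : ℝ) * nu W c * (kap W (m + s - b) * nu W (m + s - c)) := by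
    intro s _
    rw [SP_eq_conv W hW, Finset.mul_sum, Finset.mul_sum]
    refine Finset.sum_congr rfl (fun c _ => ?_)
    have e : nu W ((c : ℤ) - (m + s)) = nu W (m + s - c) := by
      rw [← C08_nu_even]
      congr 1
      ring
    rw [e]
    ring
  rw [Finset.sum_congr rfl h1, Finset.sum_comm]
  have h2 : ∀ c ∈ Finset.range W, ∑ s ∈ Finset.range W,
      1 / (W : ℝ) * nu W c * (kap W (m + s - b) * nu W (m + s - c))
      = if c = (b % (W : ℤ)).toNat then 1 / (W : ℝ) * nu W b else 0 := by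
    intro c hc
    rw [Finset.mem_range] at hc
    rw [← Finset.mul_sum, kap_conv_shift W hW m b c]
    have hb1 := Int.emod_nonneg b hWZ.ne'
    have hc1 : (c : ℤ) % W = c := Int.emod_eq_of_lt (by positivity) (by exact_mod_cast hc)
    by_cases h3 : c = (b % (W : ℤ)).toNat
    · have h4 : (c : ℤ) = b % (W : ℤ) := by
        rw [h3]
        exact Int.toNat_of_nonneg hb1
      have h5 : (c : ℤ) ≡ b [ZMOD (W : ℤ)] := by
        unfold Int.ModEq
        rw [hc1, h4]
      rw [if_pos h3, if_pos (Int.modEq_iff_dvd.mp h5.symm), mul_one, nu_periodic W c b h5]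
    · rw [if_neg h3, if_neg, mul_zero]
      intro h4
      apply h3
      have h5 : b ≡ (c : ℤ) [ZMOD (W : ℤ)] := Int.modEq_iff_dvd.mpr h4
      unfold Int.ModEq at h5
      rw [h5, hc1]
      exact (Int.toNat_natCast c).symm
  rw [Finset.sum_congr rfl h2, Finset.sum_ite_eq' (Finset.range W)]
  have h6 : (b % (W : ℤ)).toNat ∈ Finset.range W := by
    rw [Finset.mem_range]
    have := Int.emod_lt_of_pos b hWZ
    have := Int.emod_nonneg b hWZ.ne'
    omega
  rw [if_pos h6]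
  ring

/-- The number of primes in a class in terms of intensities:
`∑_{m ≤ X} |nC X y W b m/log y - ∑_{s < W} κ_W(m + s - b) λ(m + s)| ≤ #QQ (2 W + 2)(1 + W²)/log y`
for `y ≥ W + 2`. (`combination_le` with `c(m, s) = κ_W(m + s - b)`, `r(s) = s`, `N = R = W`,
`k(m, q) = 1_{q ≡ b}`, `kap_conv_shift`.) -/
theorem nC_combination (X y W : ℕ) (hW : Squarefree W) (hy : W + 2 ≤ y) (b : ℤ) :
    ∑ m ∈ Finset.Ioc (0 : ℤ) (X : ℤ),
      |(nC X y W b m : ℝ) / Real.log y
        - ∑ s ∈ Finset.range W, kap W (m + s - b) * lamQ W y (QQ 0 X) (m + s)|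
      ≤ ((QQ 0 X).card : ℝ) * (2 * W + 2) * (1 + W * 1 * W) / Real.log y := by
  have hW1 : 1 ≤ W := Nat.one_le_iff_ne_zero.mpr hW.ne_zero
  have hkey := combination_le W y X W W hW1 hy (QQ 0 X) (fun m s => kap W (m + s - b))
    (fun s => s) (fun _ q => if (W : ℤ) ∣ (q - b) then 1 else 0) 1 1
    (fun m s => abs_kap_le_one W _)
    (fun m q => by
      split_ifs <;> simp)
    (fun s hs => hs.le)
    (fun m q => kap_conv_shift W hW m b q)
  have hnC : ∀ m : ℤ, (nC X y W b m : ℝ) / Real.log y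
      = ∑ q ∈ (QQ 0 X).filter (fun q : ℕ => 1 ≤ m - q ∧ m - q ≤ (y : ℤ)),
        (if (W : ℤ) ∣ ((q : ℤ) - b) then (1 : ℝ) else 0) / Real.log y := by
    intro m
    rw [← Finset.sum_div]
    congr 1
    unfold nC
    rw [← Finset.sum_filter, Finset.filter_filter, Finset.sum_const, nsmul_eq_mul, mul_one]
    congr 2
    apply Finset.filter_congr
    intro q _
    rw [and_assoc]
    have : (q : ℤ) ≡ b [ZMOD (W : ℤ)] ↔ (W : ℤ) ∣ ((q : ℤ) - b) :=
      ⟨fun h => Int.modEq_iff_dvd.mp h.symm, fun h => (Int.modEq_iff_dvd.mpr h).symm⟩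
    rw [this]
  have hcongr : ∑ m ∈ Finset.Ioc (0 : ℤ) (X : ℤ),
      |(nC X y W b m : ℝ) / Real.log y
        - ∑ s ∈ Finset.range W, kap W (m + s - b) * lamQ W y (QQ 0 X) (m + s)|
      = ∑ m ∈ Finset.Ioc (0 : ℤ) (X : ℤ),
      |(∑ q ∈ (QQ 0 X).filter (fun q : ℕ => 1 ≤ m - q ∧ m - q ≤ (y : ℤ)),
        (if (W : ℤ) ∣ ((q : ℤ) - b) then (1 : ℝ) else 0) / Real.log y)
        - ∑ s ∈ Finset.range W, kap W (m + s - b) * lamQ W y (QQ 0 X) (m + s)| :=
    Finset.sum_congr rfl (fun m _ => by rw [hnC m])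
  rw [hcongr]
  exact hkey

end Pool.Agent.Lib.MP_bae66e_nt.LL
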