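import Pool.Agent.Lib.MP_bae66e_nt.LL.C.C07
import Pool.Agent.Lib.MP_bae66e_nt.LL.C.C08

/-!
# C09: the limit law implies equidistribution in almost all short intervals
-/

set_option autoImplicit false

open Finset

namespace Pool.Agent.Lib.MP_bae66e_nt.LL

private lemma C09_shift (g : ℤ → ℝ) (X W : ℕ) (a : ℤ) (ha : 0 ≤ a) (haW : a ≤ W) (B : ℝ)
    (hB : ∀ n, |g n| ≤ B) :
    ∑ m ∈ Finset.Ioc (0 : ℤ) (X : ℤ), |g (m + a)|
      ≤ (∑ m ∈ Finset.Ioc (0 : ℤ) (X : ℤ), |g m|) + W * B := by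
  have h1 : ∑ m ∈ Finset.Ioc (0 : ℤ) (X : ℤ), |g (m + a)|
      = ∑ n ∈ (Finset.Ioc (0 : ℤ) (X : ℤ)).image (fun m => m + a), |g n| := by
    rw [Finset.sum_image]
    intro x _ z _ hxz
    simpa using hxz
  have h2 : (Finset.Ioc (0 : ℤ) (X : ℤ)).image (fun m => m + a)
      ⊆ Finset.Ioc (0 : ℤ) (X : ℤ) ∪ Finset.Ioc (X : ℤ) (X + W) := by
    intro x hx
    rw [Finset.mem_image] at hx
    obtain ⟨m, hm, rfl⟩ := hx
    rw [Finset.mem_Ioc] at hm
    rw [Finset.mem_union, Finset.mem_Ioc, Finset.mem_Ioc]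
    omega
  have hdisj : Disjoint (Finset.Ioc (0 : ℤ) (X : ℤ)) (Finset.Ioc (X : ℤ) (X + W)) := by
    rw [Finset.disjoint_left]
    intro x hx hx2
    rw [Finset.mem_Ioc] at hx hx2
    omega
  rw [h1]
  refine (Finset.sum_le_sum_of_subset_of_nonneg h2 (fun _ _ _ => abs_nonneg _)).trans ?_
  rw [Finset.sum_union hdisj]
  have h3 : ∑ n ∈ Finset.Ioc (X : ℤ) (X + W), |g n| ≤ W * B := by
    refine (Finset.sum_le_sum (fun n _ => hB n)).trans (le_of_eq ?_)
    rw [Finset.sum_const, Int.card_Ioc, nsmul_eq_mul]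
    congr 1
    have : ((X : ℤ) + W - X).toNat = W := by omega
    rw [this]
  linarith

/-- Under the limit law: `∑_{m ≤ X} |nC X y W b m/log y - t/φ(W)| ≤ ε X` for `b` coprime to
`W = primorial w`, `y = yX t X` and large `X`.

PROOF. `nC_combination`, `kap_SP` (`nu W b / W = 1/φ(W)`), `abs_kap_le_one`, `L1_fixed` with
`ε/(4 W)` and the bound for the `m + s ∈ (X, X + W]` as in `L1_fixed` (`lamQ_le`, `SP_le`,
`edge_small`): `∑_m |∑_s κ (λ(m + s) - t SP(m + s))| ≤ ∑_s ∑_{m ≤ X + W} |λ - t SP|`. -/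
theorem nC_L1 (w : ℕ) (b : ℤ) (hb : IsCoprime b ((primorial w : ℕ) : ℤ)) (t : ℝ)
    (ht : 0 < t) (hLL : LimitLawAt t) (ε : ℝ) (hε : 0 < ε) : ∃ X₀ : ℕ, ∀ X : ℕ, X₀ ≤ X →
      ∑ m ∈ Finset.Ioc (0 : ℤ) (X : ℤ),
        |(nC X (yX t X) (primorial w) b m : ℝ) / Real.log (yX t X)
          - t / (Nat.totient (primorial w) : ℝ)| ≤ ε * X := by
  set W : ℕ := primorial w with hW
  have hsq : Squarefree W := _root_.squarefree_primorial w
  have hWpos : 1 ≤ W := Nat.one_le_iff_ne_zero.mpr hsq.ne_zero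
  have hWR : (1 : ℝ) ≤ W := by exact_mod_cast hWpos
  have hW0 : (0 : ℝ) < W := by linarith
  obtain ⟨X₁, hX₁⟩ := L1_fixed w t ht hLL (ε / (4 * W)) (by positivity)
  obtain ⟨X₂, hX₂⟩ := edge_small t ht ((2 * W + 2) * (1 + W * 1 * W)) (ε / 4) (by positivity)
    (by linarith)
  obtain ⟨X₃, hX₃⟩ := edge_small t ht ((2 + t) * W ^ 3) (ε / 4) (by positivity) (by linarith)
  obtain ⟨X₄, hX₄⟩ := edge_small t ht (W + 2) (ε / 4) (by positivity) (by linarith)
  refine ⟨max (max X₁ X₂) (max X₃ X₄), fun X hX => ?_⟩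
  have hXa := hX₁ X ((le_max_left _ _).trans ((le_max_left _ _).trans hX))
  obtain ⟨hb1, _, _, hb4⟩ := hX₂ X ((le_max_right _ _).trans ((le_max_left _ _).trans hX))
  obtain ⟨_, hc2, _, _⟩ := hX₃ X ((le_max_left _ _).trans ((le_max_right _ _).trans hX))
  obtain ⟨_, _, hd3, _⟩ := hX₄ X ((le_max_right _ _).trans ((le_max_right _ _).trans hX))
  rw [← hW] at hXa
  set y : ℕ := yX t X with hy
  set Q := QQ 0 X with hQ
  have hyR : (2 : ℝ) ≤ y := by exact_mod_cast hb4
  have hyW : W + 2 ≤ y := by exact_mod_cast hd3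
  have hlog : 1 / 2 ≤ Real.log y := by
    have h1 := Real.log_two_gt_d9
    have h2 := Real.log_le_log (by norm_num) hyR
    linarith
  have hcomb := nC_combination X y W hsq hyW b
  rw [← hQ] at hcomb
  set g : ℤ → ℝ := fun n => lamQ W y Q n - t * SP W n with hg
  have hgB : ∀ n, |g n| ≤ (2 + t) * W * y := by
    intro n
    have e1 := lamQ_le W y hWpos hb4 Q n
    have e2 := lamQ_nonneg W y hb4 Q n
    have e3 := SP_le W hsq n
    have e4 := SP_nonneg W n
    have e5 : (y : ℝ) * W / Real.log y ≤ 2 * (y * W) := by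
      rw [div_le_iff₀ (by linarith)]
      have : 0 ≤ (y : ℝ) * W := by positivity
      nlinarith
    have e6 : t * SP W n ≤ t * W := mul_le_mul_of_nonneg_left e3 ht.le
    have e7 : 0 ≤ t * SP W n := mul_nonneg ht.le e4
    have e8 : t * W ≤ t * W * y := by
      have : 0 ≤ t * W := by positivity
      nlinarith
    simp only [hg]
    rw [abs_le]
    constructor
    · nlinarith
    · nlinarith
  have hshift : ∀ s ∈ Finset.range W, ∑ m ∈ Finset.Ioc (0 : ℤ) (X : ℤ), |g (m + s)|
      ≤ ε / (4 * W) * X + W * ((2 + t) * W * y) := by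
    intro s hs
    rw [Finset.mem_range] at hs
    refine (C09_shift g X W s (by positivity) (by exact_mod_cast hs.le) _ hgB).trans ?_
    have h3 : ∑ m ∈ Finset.Ioc (0 : ℤ) (X : ℤ), |g m| ≤ ε / (4 * W) * X := hXa
    linarith
  have hnu : nu W b / W = 1 / (Nat.totient W : ℝ) := by
    unfold nu
    rw [if_pos hb]
    have : (Nat.totient W : ℝ) ≠ 0 := by exact_mod_cast (Nat.totient_pos.mpr hWpos).ne'
    field_simp
  have htri : ∀ m ∈ Finset.Ioc (0 : ℤ) (X : ℤ),
      |(nC X y W b m : ℝ) / Real.log y - t / (Nat.totient W : ℝ)|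
      ≤ |(nC X y W b m : ℝ) / Real.log y
          - ∑ s ∈ Finset.range W, kap W (m + s - b) * lamQ W y Q (m + s)|
        + ∑ s ∈ Finset.range W, |g (m + s)| := by
    intro m _
    have e0 := kap_SP W hsq m b
    rw [hnu] at e0
    have e1 : (nC X y W b m : ℝ) / Real.log y - t / (Nat.totient W : ℝ)
        = ((nC X y W b m : ℝ) / Real.log y
          - ∑ s ∈ Finset.range W, kap W (m + s - b) * lamQ W y Q (m + s))
          + ∑ s ∈ Finset.range W, kap W (m + s - b) * g (m + s) := by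
      have e2 : ∑ s ∈ Finset.range W, kap W (m + s - b) * g (m + s)
          = ∑ s ∈ Finset.range W, kap W (m + s - b) * lamQ W y Q (m + s)
            - t * ∑ s ∈ Finset.range W, kap W (m + s - b) * SP W (m + s) := by
        rw [Finset.mul_sum, ← Finset.sum_sub_distrib]
        refine Finset.sum_congr rfl (fun s _ => ?_)
        simp only [hg]
        ring
      rw [e2, e0]
      ring
    rw [e1]
    refine (abs_add_le _ _).trans ?_
    have e3 : |∑ s ∈ Finset.range W, kap W (m + s - b) * g (m + s)|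
        ≤ ∑ s ∈ Finset.range W, |g (m + s)| := by
      refine (Finset.abs_sum_le_sum_abs _ _).trans (Finset.sum_le_sum (fun s _ => ?_))
      rw [abs_mul]
      have := mul_le_mul_of_nonneg_right (abs_kap_le_one W (m + s - b)) (abs_nonneg (g (m + s)))
      linarith
    linarith
  refine (Finset.sum_le_sum htri).trans ?_
  rw [Finset.sum_add_distrib, Finset.sum_comm (s := Finset.Ioc (0 : ℤ) (X : ℤ))
    (t := Finset.range W)]
  have e5 : ∑ s ∈ Finset.range W, ∑ m ∈ Finset.Ioc (0 : ℤ) (X : ℤ),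
      |g (m + s)| ≤ ε / 2 * X := by
    have e6 := Finset.sum_le_sum hshift
    rw [Finset.sum_const, Finset.card_range, nsmul_eq_mul] at e6
    have e7 : (W : ℝ) * (ε / (4 * W) * X + W * ((2 + t) * W * y))
        = ε / 4 * X + (2 + t) * W ^ 3 * y := by
      field_simp
    rw [e7] at e6
    linarith
  have e7 : (Q.card : ℝ) * (2 * W + 2) * (1 + W * 1 * W) / Real.log y ≤ ε / 4 * X := by
    have : (Q.card : ℝ) * (2 * W + 2) * (1 + W * 1 * W) / Real.log y
        = (Q.card : ℝ) * ((2 * W + 2) * (1 + W * 1 * W)) / Real.log y := by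
      ring
    rw [this]
    exact hb1
  have e8 : (0 : ℝ) ≤ ε * X := by positivity
  linarith

/-- `log (yX t X) / loglog X → 1`. -/
lemma log_yX (t : ℝ) (ht : 0 < t) (δ : ℝ) (hδ : 0 < δ) : ∃ X₀ : ℕ, ∀ X : ℕ, X₀ ≤ X →
    |Real.log (yX t X) - Real.log (Real.log X)| ≤ δ * Real.log (Real.log X) := by
  have h1 : Filter.Tendsto (fun X : ℕ => Real.log (X : ℝ)) Filter.atTop Filter.atTop :=
    Real.tendsto_log_atTop.comp tendsto_natCast_atTop_atTop
  have h2 : Filter.Tendsto (fun X : ℕ => Real.log (Real.log (X : ℝ))) Filter.atTop Filter.atTop :=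
    Real.tendsto_log_atTop.comp h1
  have h3 : Filter.Tendsto (fun X : ℕ => t * Real.log X * Real.log (Real.log X))
      Filter.atTop Filter.atTop :=
    (h1.const_mul_atTop ht).atTop_mul_atTop₀ h2
  have e1 := h3.eventually_ge_atTop 2
  have e2 := h2.eventually_ge_atTop (max 1 ((|Real.log t| + Real.log 2) / (δ / 2)))
  have e3 := h2.eventually (Real.isLittleO_log_id_atTop.bound (half_pos hδ))
  have e4 := h1.eventually_ge_atTop 1
  obtain ⟨X₀, hX₀⟩ := Filter.eventually_atTop.mp ((e1.and e2).and (e3.and e4))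
  refine ⟨X₀, fun X hX => ?_⟩
  obtain ⟨⟨f1, f2⟩, f3, f4⟩ := hX₀ X hX
  set L := Real.log (X : ℝ) with hL
  set M := Real.log L with hM
  have hM1 : 1 ≤ M := (le_max_left _ _).trans f2
  have hM2 := (le_max_right _ _).trans f2
  rw [div_le_iff₀ (by linarith)] at hM2
  simp only [id] at f3
  have hlM : 0 ≤ Real.log M := Real.log_nonneg hM1
  rw [Real.norm_of_nonneg hlM, Real.norm_of_nonneg (by linarith : (0 : ℝ) ≤ M)] at f3
  have hlogx : Real.log (t * L * M) = Real.log t + M + Real.log M := by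
    rw [Real.log_mul (by positivity) (by linarith), Real.log_mul ht.ne' (by linarith)]
  have hy1 : ((yX t X : ℕ) : ℝ) ≤ t * L * M := Nat.floor_le (by linarith)
  have hy2 : t * L * M / 2 ≤ ((yX t X : ℕ) : ℝ) := by
    have := Nat.lt_floor_add_one (t * L * M)
    have e : ((yX t X : ℕ) : ℝ) = (⌊t * L * M⌋₊ : ℝ) := rfl
    rw [e]
    linarith
  have hx0 : 0 < t * L * M := by linarith
  have g1 := Real.log_le_log (by linarith : 0 < ((yX t X : ℕ) : ℝ)) hy1
  have g2 := Real.log_le_log (by linarith : 0 < t * L * M / 2) hy2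
  rw [Real.log_div (by linarith) (by norm_num)] at g2
  rw [hlogx] at g1 g2
  have k1 := le_abs_self (Real.log t)
  have k2 := neg_abs_le (Real.log t)
  have k3 : 0 ≤ Real.log 2 := Real.log_nonneg (by norm_num)
  rw [abs_le]
  constructor
  · linarith
  · linarith

/-- The limit law at `t` implies `EquiAt t`.

PROOF. If `|nC - t LL/φ(W)| > ε LL` with `LL = loglog X`, then by `log_yX` with a small `δ`
(`t δ ≤ ε/4`, `δ ≤ 1`), `|nC/log y - t/φ(W)| > ε/8` (as `log y ≤ 2 LL` and
`|nC - t log y/φ(W)| ≥ ε LL - t δ LL`). By Markov's inequality and `nC_L1` with `ε²/8` the number of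
such `m ≤ X` is at most `ε X`. -/
theorem limitLaw_imp_equi (t : ℝ) (ht : 0 < t) (hLL : LimitLawAt t) : EquiAt t := by
  intro w b hb ε hε
  obtain ⟨X₁, hX₁⟩ := nC_L1 w b hb t ht hLL (ε ^ 2 / 4) (by positivity)
  obtain ⟨X₂, hX₂⟩ := log_yX t ht (min 1 (ε / (4 * t))) (by positivity)
  have h1 : Filter.Tendsto (fun X : ℕ => Real.log (Real.log (X : ℝ))) Filter.atTop Filter.atTop :=
    Real.tendsto_log_atTop.comp (Real.tendsto_log_atTop.comp tendsto_natCast_atTop_atTop)
  obtain ⟨X₃, hX₃⟩ := Filter.eventually_atTop.mp (h1.eventually_ge_atTop 1)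
  obtain ⟨X₄, hX₄⟩ := edge_small t ht 0 1 le_rfl one_pos
  refine ⟨max (max X₁ X₂) (max X₃ X₄), fun X hX => ?_⟩
  have hA := hX₁ X ((le_max_left _ _).trans ((le_max_left _ _).trans hX))
  have hB := hX₂ X ((le_max_right _ _).trans ((le_max_left _ _).trans hX))
  have hC := hX₃ X ((le_max_left _ _).trans ((le_max_right _ _).trans hX))
  obtain ⟨_, _, _, hD⟩ := hX₄ X ((le_max_right _ _).trans ((le_max_right _ _).trans hX))
  set y : ℕ := yX t X with hy
  set M := Real.log (Real.log (X : ℝ)) with hM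
  set W := primorial w with hW
  have hφ : (1 : ℝ) ≤ Nat.totient W := by
    have : 1 ≤ Nat.totient W := Nat.totient_pos.mpr (Nat.one_le_iff_ne_zero.mpr
      (_root_.squarefree_primorial w).ne_zero)
    exact_mod_cast this
  have hly : 0 < Real.log y := Real.log_pos (by exact_mod_cast (by omega : 1 < y))
  have hly2 : Real.log y ≤ 2 * M := by
    have h2 := le_abs_self (Real.log y - M)
    have h3 : min 1 (ε / (4 * t)) * M ≤ 1 * M :=
      mul_le_mul_of_nonneg_right (min_le_left _ _) (by linarith)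
    linarith
  have hBt : t * |Real.log y - M| ≤ ε / 4 * M := by
    have h3 : min 1 (ε / (4 * t)) * M ≤ ε / (4 * t) * M :=
      mul_le_mul_of_nonneg_right (min_le_right _ _) (by linarith)
    have h4 : t * (ε / (4 * t) * M) = ε / 4 * M := by field_simp
    have h5 := mul_le_mul_of_nonneg_left (hB.trans h3) ht.le
    linarith
  refine le_of_mul_le_mul_right ?_ (by positivity : 0 < ε / 4)
  have hS := Finset.card_nsmul_le_sum ((Finset.Ioc (0 : ℤ) (X : ℤ)).filter (fun m : ℤ =>
        ε * M < |(nC X y W b m : ℝ) - t * M / (Nat.totient W : ℝ)|))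
    (fun m => |(nC X y W b m : ℝ) / Real.log y - t / (Nat.totient W : ℝ)|) (ε / 4) ?_
  · rw [nsmul_eq_mul] at hS
    refine le_trans ?_ ((hS.trans (Finset.sum_le_sum_of_subset_of_nonneg
      (Finset.filter_subset _ _) (fun _ _ _ => abs_nonneg _))).trans (hA.trans (le_of_eq ?_)))
    · refine le_of_eq ?_
      congr 3
    · ring
  · intro m hm
    rw [Finset.mem_filter] at hm
    obtain ⟨_, hm2⟩ := hm
    have h6 : |(nC X y W b m : ℝ) - t * M / (Nat.totient W : ℝ)|
        ≤ |(nC X y W b m : ℝ) - t * Real.log y / (Nat.totient W : ℝ)| + ε / 4 * M := by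
      have e1 : (nC X y W b m : ℝ) - t * M / (Nat.totient W : ℝ)
          = ((nC X y W b m : ℝ) - t * Real.log y / (Nat.totient W : ℝ))
            + t * (Real.log y - M) / (Nat.totient W : ℝ) := by
        ring
      rw [e1]
      refine (abs_add_le _ _).trans ?_
      have e2 : |t * (Real.log y - M) / (Nat.totient W : ℝ)| ≤ ε / 4 * M := by
        rw [abs_div, abs_mul, abs_of_pos ht, abs_of_pos (by linarith : (0 : ℝ) < Nat.totient W)]
        rw [div_le_iff₀ (by linarith)]
        have : 0 ≤ ε / 4 * M := by positivity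
        nlinarith
      linarith
    have h7 : |(nC X y W b m : ℝ) / Real.log y - t / (Nat.totient W : ℝ)| * Real.log y
        = |(nC X y W b m : ℝ) - t * Real.log y / (Nat.totient W : ℝ)| := by
      rw [← abs_of_pos hly, ← abs_mul, abs_of_pos hly]
      congr 1
      field_simp
    have h8 : 3 / 4 * (ε * M) ≤ |(nC X y W b m : ℝ) / Real.log y - t / (Nat.totient W : ℝ)|
        * Real.log y := by
      rw [h7]
      linarith
    have h9 : 3 / 4 * (ε * M) ≤ |(nC X y W b m : ℝ) / Real.log y - t / (Nat.totient W : ℝ)|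
        * (2 * M) := h8.trans (mul_le_mul_of_nonneg_left hly2 (abs_nonneg _))
    have hM0 : 0 < M := by linarith
    have h10 : 3 / 8 * ε ≤ |(nC X y W b m : ℝ) / Real.log y - t / (Nat.totient W : ℝ)| := by
      by_contra hcon
      push Not at hcon
      have := mul_lt_mul_of_pos_right hcon (by linarith : 0 < 2 * M)
      nlinarith
    linarith

end Pool.Agent.Lib.MP_bae66e_nt.LL
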