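import Pool.Agent.Lib.MP_bae66e_nt.LL.C.C09
import Pool.Agent.Lib.MP_bae66e_nt.Mg.G050

/-!
# C11: the equivalence
-/

set_option autoImplicit false

namespace Pool.Agent.Lib.MP_bae66e_nt.LL

theorem limitLawAt_iff_equiAt (t : ℝ) (ht : 0 < t) : LimitLawAt t ↔ EquiAt t :=
  ⟨limitLaw_imp_equi t ht, equi_imp_limitLaw t ht⟩

end Pool.Agent.Lib.MP_bae66e_nt.LL
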