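import Pool.Agent.Lib.MP_bae66e_nt.Mg.G048

/-!
# C12: the lower half of the limit law
-/

set_option autoImplicit false

open Finset Filter Topology

namespace Pool.Agent.Lib.MP_bae66e_nt.LL

/-- The lower half of the limit law, for the count `cntX`. -/
theorem cntX_lower (t : ℝ) (ht : 0 < t) (ε : ℝ) (hε : 0 < ε) :
    ∃ X₀ : ℕ, ∀ X : ℕ, X₀ ≤ X → (DDlim t - ε) * (X / 2) ≤ (cntX t X : ℝ) := by
  obtain ⟨w₀, hw₀⟩ := cntX_formula t ht (ε / 8) (by linarith)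
  obtain ⟨w₁, hw₁⟩ := DDlim_le t ht.le (ε / 4) (by linarith)
  obtain ⟨w, hw⟩ : ∃ w : ℕ, w = max (max w₀ w₁) 2 := ⟨_, rfl⟩
  obtain ⟨X₁, hX₁⟩ := hw₀ w (by omega)
  have hD := hw₁ w (by omega)
  have h2 : 2 ∣ primorial w := Nat.prime_two.dvd_primorial_iff.2 (by omega)
  obtain ⟨δ, hδ, N₀, hN₀⟩ := even_lower (primorial w) (squarefree_primorial w) h2 t (ε / 4) ht
    (by linarith)
  obtain ⟨X₂, hX₂⟩ := yX_props t δ ht hδ N₀
  refine ⟨max (max X₁ X₂) N₀, fun X hX => ?_⟩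
  have h3 := hX₁ X (by omega)
  obtain ⟨h4, h5⟩ := hX₂ X (by omega)
  have h6 := hN₀ X (by omega) (yX t X) h4 h5
  have h7 := (abs_le.1 h3).1
  have hX0 : (0 : ℝ) ≤ X := Nat.cast_nonneg X
  nlinarith

end Pool.Agent.Lib.MP_bae66e_nt.LL
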